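import Pool.Agent.V5helper45.PV.Main

/-! The local criterion with the roots modulo `p` and the density of the primes (a variant of
`Pool.Agent.V5helper45.PV.local_main'`). -/

set_option autoImplicit false

namespace Pool.Agent.V5helper45.PQ

open Finset Polynomial Pool.Agent.R925.FD
open Pool.Agent.V5helper45.PV hiding val
open Pool.Agent.W401.Cheb Pool.Agent.W723.SecC Pool.Agent.N24.RW

/-- a positive proportion of the primes -/
def Dense (S : Set ℕ) : Prop := ∃ δ C : ℝ, 0 < δ ∧ ∀ N : ℕ,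
  δ * (∑ n ∈ range N, Set.indicator {p | p.Prime} (fun _ => (1 : ℝ)) n) - C ≤
    ∑ n ∈ range N, Set.indicator S (fun _ => (1 : ℝ)) n

/-- points modulo `p` -/
def Pts {κ : Type} (f E : (MvPolynomial κ ℤ)[X]) (p : ℕ) : Prop :=
  ∃ Np : MvPolynomial κ (ZMod p), Np ≠ 0 ∧ ∀ x : κ → ZMod p, MvPolynomial.eval x Np ≠ 0 →
    ∃ u : ZMod p, PV.val f x u = 0 ∧ PV.val E x u ≠ 0

/-- **The local criterion.** -/
theorem local_core {K : Type} [Fintype K] (n : ℕ) (hn : 0 < n) (b : ℤ) (hb : b ≠ 0) (g : K → ℤ[X])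
    (h : ℤ[X]) (hg0 : ∀ k, g k ≠ 0) (hh0 : h ≠ 0) (hdeg : ∀ k, n ∣ (g k).natDegree)
    (hgg : ∀ k l, k ≠ l →
      IsCoprime ((g k).map (Int.castRingHom ℚ)) ((g l).map (Int.castRingHom ℚ)))
    (hgh : ∀ k, IsCoprime (h.map (Int.castRingHom ℚ)) ((g k).map (Int.castRingHom ℚ)))
    {κ : Type} [Fintype κ] (Φ f G : (MvPolynomial κ ℤ)[X]) (r : MvPolynomial κ ℤ) (e : ℕ)
    (hrel : C r * Φ = f ^ e * G) (A B : MvPolynomial κ (AlgebraicClosure ℚ)) (hA : A ≠ 0)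
    (hAi : ∀ μ, IsIntegral ℤ (A.coeff μ)) (hBi : ∀ μ, IsIntegral ℤ (B.coeff μ))
    (hf : eval₂ (toF κ) (algebraMap _ (FractionRing (MvPolynomial κ (AlgebraicClosure ℚ))) B /
      algebraMap _ (FractionRing (MvPolynomial κ (AlgebraicClosure ℚ))) A) f = 0)
    (hE : eval₂ (toF κ) (algebraMap _ (FractionRing (MvPolynomial κ (AlgebraicClosure ℚ))) B /
      algebraMap _ (FractionRing (MvPolynomial κ (AlgebraicClosure ℚ))) A) (C r * (derivative f * G)) ≠ 0) :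
    ∃ (Δ : Finset (K → ℤ)) (P : (K → ℤ) → Set ℕ),
      (∀ s ∈ Δ, (∀ p ∈ P s, p.Prime ∧ Pts f (C r * (derivative f * G)) p) ∧ Dense (P s)) ∧
      ∀ c : Option κ → ℤ, (∀ s ∈ Δ, ∃ p ∈ P s, (p : ℤ) ^ e ∣ PV.val Φ (fun i => c (some i)) (c none) ∧
        ¬ (p : ℤ) ^ (e + 1) ∣ PV.val Φ (fun i => c (some i)) (c none)) → ∀ m, ¬ m ∣ e →
        m ∣ h.natDegree → ∀ δ : K → ℚ, IsClass n b δ →
        (∀ (p : ℕ) [Fact p.Prime], CoveringHasPoint n m (PV.val Φ (fun i => c (some i)) (c none)) g h δ ℚ_[p]) →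
          PersistentOver n g h A B δ := by
  classical
  obtain ⟨N0, hN0, hgood⟩ := good_primes g h hg0 hh0 hgg hgh
  set N : ℕ := N0 * b.natAbs with hN
  have hNpos : 0 < N := Nat.mul_pos hN0 (Int.natAbs_pos.2 hb)
  have hgoodN : ∀ p : ℕ, ¬ p ∣ N → ¬ p ∣ N0 ∧ ¬ (p : ℤ) ∣ b := fun p hp =>
    ⟨fun h1 => hp (h1.trans (Dvd.intro _ rfl)),
      fun h1 => hp ((Int.natCast_dvd.1 h1).trans (Dvd.intro_left _ rfl))⟩
  -- the finite set of the classes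
  set D : Finset ℤ := (Finset.Icc (-((N : ℤ) ^ n)) ((N : ℤ) ^ n)).filter (fun s => s ∣ (N : ℤ) ^ n)
    with hD
  have hNn : (0 : ℤ) < (N : ℤ) ^ n := pow_pos (by exact_mod_cast hNpos) n
  have hmemD : ∀ s : ℤ, s ∣ (N : ℤ) ^ n → s ∈ D := by
    intro s hs
    rw [hD, mem_filter, Finset.mem_Icc]
    have h1 := Int.le_of_dvd hNn hs
    have h2 := Int.le_of_dvd hNn ((neg_dvd).2 hs)
    exact ⟨⟨by linarith, h1⟩, hs⟩
  have hD0 : ∀ s ∈ D, s ≠ 0 := by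
    rintro s hs rfl
    rw [hD, mem_filter] at hs
    exact hNn.ne' (zero_dvd_iff.1 hs.2)
  set Δ : Finset (K → ℤ) := (Fintype.piFinset fun _ : K => D).filter
    (fun s => ¬ PersistentOver n g h A B (fun k => (s k : ℚ))) with hΔ
  -- for each class there are many primes
  have hex : ∀ s ∈ Δ, ∃ P : Set ℕ, (∀ p ∈ P, p.Prime ∧ Pts f (C r * (derivative f * G)) p) ∧ Dense P ∧
        ∀ p ∈ P, ¬ p ∣ N ∧ ¬ R p n g h s := by
    intro s hs
    rw [hΔ, mem_filter, Fintype.mem_piFinset] at hs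
    obtain ⟨hsD, hnp⟩ := hs
    unfold PersistentOver at hnp
    push Not at hnp
    obtain ⟨σ, hσA, hσB, hσ⟩ := hnp
    set Sx : Set (AlgebraicClosure ℚ) := Set.range (fun μ => A.coeff μ) ∪ Set.range (fun μ => B.coeff μ) with hSx
    have hSxf : Sx.Finite := by
      have h1 : ∀ P : MvPolynomial κ (AlgebraicClosure ℚ), (Set.range (fun μ => P.coeff μ)).Finite := by
        intro P
        refine ((P.support.image fun μ => P.coeff μ) ∪ {0}).finite_toSet.subset ?_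
        rintro _ ⟨μ, rfl⟩
        change P.coeff μ ∈ _
        by_cases hμ : P.coeff μ = 0
        · rw [coe_union, hμ]
          right
          simp
        · rw [coe_union, coe_image]
          left
          exact ⟨μ, MvPolynomial.mem_support_iff.2 hμ, rfl⟩
      exact (h1 A).union (h1 B)
    obtain ⟨L, iF, iN, iG, j, τ, m, hjS, hjτ, hm, hL⟩ := cheb' n hn g h hh0 hdeg s (fun k => hD0 _ (hsD k)) σ
      Sx hSxf (by
      intro β h1 h2
      obtain ⟨k, hk⟩ := hσ β h1 h2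
      refine ⟨k, fun y hy => ?_⟩
      have h3 := hk y hy
      rw [Rat.cast_intCast] at h3
      exact h3)
    obtain ⟨m2, hm2, d, hred⟩ := reduction A B hA hAi hBi σ hσA hσB L j τ
      (fun μ => hjS _ (Or.inl ⟨μ, rfl⟩)) (fun μ => hjS _ (Or.inr ⟨μ, rfl⟩)) hjτ f (C r * (derivative f * G)) hf hE
    set M := m * m2 * N * (2 * d).factorial with hM
    have hMpos : 0 < M := Nat.mul_pos (Nat.mul_pos (Nat.mul_pos hm hm2) hNpos) (Nat.factorial_pos _)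
    obtain ⟨δ, C', hδpos, hcount⟩ := count L τ M hMpos
    refine ⟨frobSet L τ M, fun p hp => ⟨hp.1, ?_⟩, ⟨δ, C', hδpos, hcount⟩, fun p hp => ?_⟩
    · obtain ⟨hF, Np, hNp0, hNpd, hNp⟩ := hred p ⟨hp.1, fun h4 => hp.2.1 (h4.trans ⟨m * N * (2 * d).factorial, by
        rw [hM]; ring⟩), hp.2.2⟩
      exact ⟨Np, hNp0, hNp⟩
    · refine ⟨fun h4 => hp.2.1 (h4.trans ⟨m * m2 * (2 * d).factorial, by rw [hM]; ring⟩), ?_⟩
      exact hL p ⟨hp.1, fun h4 => hp.2.1 (h4.trans ⟨m2 * N * (2 * d).factorial, by rw [hM]; ring⟩), hp.2.2⟩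
  choose! P hP1 hP2 hP3 using hex
  refine ⟨Δ, P, fun s hs => ⟨hP1 s hs, hP2 s hs⟩, ?_⟩
  intro cc ha m hm hmh δ hcl hloc
  obtain ⟨hδ0, t, ht⟩ := hcl
  by_contra hnp
  have hval : ∀ k, ∀ p : ℕ, p.Prime → ¬ p ∣ N → (n : ℤ) ∣ padicValRat p (δ k) := by
    intro k p hp hpN
    have hpF : Fact p.Prime := ⟨hp⟩
    obtain ⟨z, w, x, hzw, hx, hy⟩ := hloc p
    exact val_dvd hdeg (fun u v huv => (hgood p hpF (hgoodN p hpN).1 u v huv).1) hb
      (hgoodN p hpN).2 hδ0 ht hzw hy k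
  choose s c hs hc hsc using fun k => rep (δ k) (hδ0 k) N hNpos n hn (hval k)
  have hsΔ : s ∈ Δ := by
    rw [hΔ, mem_filter, Fintype.mem_piFinset]
    refine ⟨fun k => hmemD _ (hs k), fun hper => hnp ?_⟩
    intro σ hσA hσB
    obtain ⟨β, hβ, hβh, hy⟩ := hper σ hσA hσB
    refine ⟨β, hβ, hβh, fun k => ?_⟩
    obtain ⟨y, hyσ, hyk⟩ := hy k
    have hck : ((c k : ℚ) : AlgebraicClosure ℚ) ≠ 0 := Rat.cast_ne_zero.2 (hc k)
    have hσc : σ ((c k : ℚ) : AlgebraicClosure ℚ) = ((c k : ℚ) : AlgebraicClosure ℚ) :=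
      map_ratCast σ (c k)
    refine ⟨y / (c k : ℚ), ?_, ?_⟩
    · rw [map_div₀, hyσ, hσc]
    · rw [hyk, hsc k, div_pow]
      push_cast
      have h5 : ((c k : ℚ) : AlgebraicClosure ℚ) ^ n ≠ 0 := pow_ne_zero _ hck
      field_simp
  obtain ⟨p, hpP, hpa, hpa2⟩ := ha s hsΔ
  obtain ⟨hpN, hR⟩ := hP3 s hsΔ p hpP
  have hpF : Fact p.Prime := ⟨(hP1 s hsΔ p hpP).1⟩
  apply hR
  obtain ⟨z, w, x, hzw, hx, hy⟩ := hloc p
  obtain ⟨u, v, huv, hhuv, hred⟩ := reduces'' (K := K) hn hm hdeg hmh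
    (fun u v huv => (hgood p hpF (hgoodN p hpN).1 u v huv).2) hpa hpa2 hzw hx
  refine ⟨u, v, huv, hhuv, fun k => ?_⟩
  refine hred k (s k) (fun h3 => ?_) ?_
  · have h4 : (p : ℤ) ∣ (N : ℤ) ^ n := h3.trans (hs k)
    have h5 := (Nat.prime_iff_prime_int.1 hpF.out).dvd_of_dvd_pow h4
    exact hpN (by exact_mod_cast h5)
  · obtain ⟨y, hyk⟩ := hy k
    refine ⟨(c k : ℚ) * y, ?_⟩
    rw [hyk, hsc k]
    push_cast
    ring



end Pool.Agent.V5helper45.PQ
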