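import Pool.Agent.V5helper45.PQ.Sv
import Pool.Agent.V5helper45.PQ.Core
import Pool.Agent.Erdos456.Mertens

/-! Sums over the primes of a set of positive density. -/

set_option autoImplicit false

namespace Pool.Agent.V5helper45.PQ

open Finset Filter

/-- the sum of the reciprocals of the primes up to `y` -/
noncomputable def MM (y : ℕ) : ℝ := ∑ p ∈ (Icc 1 y).filter Nat.Prime, (1 : ℝ) / p

open Classical in
/-- the sum of the reciprocals of the members of `S` up to `y` -/
noncomputable def MS (S : Set ℕ) (y : ℕ) : ℝ := ∑ p ∈ (Icc 1 y).filter (fun p => p ∈ S), (1 : ℝ) / p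

theorem dense_sum {S : Set ℕ} (hS : Dense S) (hp : ∀ p ∈ S, p.Prime) :
    ∃ δ C : ℝ, 0 < δ ∧ ∀ y, δ * MM y - C ≤ MS S y := by
  classical
  obtain ⟨δ, C, hδ, h⟩ := hS
  refine ⟨δ / 2, C, by positivity, fun y => ?_⟩
  set w : ℕ → ℝ := fun n => 1 / ((n : ℝ) + 1) with hw
  have hwa : Antitone w := by
    intro a b hab
    simp only [hw]
    apply one_div_le_one_div_of_le (by positivity)
    have : (a : ℝ) ≤ b := by exact_mod_cast hab
    linarith
  have hw0 : ∀ n, 0 ≤ w n := fun n => by simp only [hw]; positivity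
  have h1 := Pool.Agent.W723.SecC.abel (fun n => Set.indicator S (fun _ => (1 : ℝ)) n -
    δ * Set.indicator {p | p.Prime} (fun _ => (1 : ℝ)) n) w hwa hw0 C (fun N => by
      have := h N
      rw [sum_sub_distrib, ← mul_sum]
      linarith) (y + 1)
  have h2 : ∑ n ∈ range (y + 1), (Set.indicator S (fun _ => (1 : ℝ)) n -
    δ * Set.indicator {p | p.Prime} (fun _ => (1 : ℝ)) n) * w n =
    ∑ n ∈ range (y + 1), Set.indicator S (fun _ => (1 : ℝ)) n * w n -
    δ * ∑ n ∈ range (y + 1), Set.indicator {p | p.Prime} (fun _ => (1 : ℝ)) n * w n := by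
    rw [mul_sum, ← sum_sub_distrib]
    refine sum_congr rfl fun n _ => by ring
  have h3 : w 0 = 1 := by simp [hw]
  simp only at h1
  rw [h2, h3, mul_one] at h1
  have h4 : (1 / 2) * MM y ≤ ∑ n ∈ range (y + 1), Set.indicator {p | p.Prime} (fun _ => (1 : ℝ)) n * w n := by
    unfold MM
    rw [mul_sum]
    have h5 : ∑ n ∈ range (y + 1), Set.indicator {p | p.Prime} (fun _ => (1 : ℝ)) n * w n =
        ∑ n ∈ (range (y + 1)).filter Nat.Prime, w n := by
      rw [sum_filter]
      refine sum_congr rfl fun n _ => ?_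
      by_cases hn : n.Prime
      · rw [Set.indicator_of_mem (by exact hn), if_pos hn, one_mul]
      · rw [Set.indicator_of_notMem (by exact hn), if_neg hn, zero_mul]
    have h6 : (Icc 1 y).filter Nat.Prime = (range (y + 1)).filter Nat.Prime := by
      ext n
      simp only [mem_filter, mem_Icc, mem_range]
      constructor
      · rintro ⟨h7, h8⟩
        exact ⟨by omega, h8⟩
      · rintro ⟨h7, h8⟩
        exact ⟨⟨h8.one_lt.le, by omega⟩, h8⟩
    rw [h5, h6]
    refine sum_le_sum fun n hn => ?_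
    have hn1 : (1 : ℝ) ≤ n := by exact_mod_cast (mem_filter.1 hn).2.one_lt.le
    simp only [hw]
    rw [div_mul_div_comm, one_mul]
    exact one_div_le_one_div_of_le (by linarith) (by linarith)
  have h5 : ∑ n ∈ range (y + 1), Set.indicator S (fun _ => (1 : ℝ)) n * w n ≤ MS S y := by
    unfold MS
    have h6 : ∑ n ∈ range (y + 1), Set.indicator S (fun _ => (1 : ℝ)) n * w n =
        ∑ n ∈ (range (y + 1)).filter (fun n => n ∈ S), w n := by
      rw [sum_filter]
      refine sum_congr rfl fun n _ => ?_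
      by_cases hn : n ∈ S
      · rw [Set.indicator_of_mem hn, if_pos hn, one_mul]
      · rw [Set.indicator_of_notMem hn, if_neg hn, zero_mul]
    have h7 : (range (y + 1)).filter (fun n => n ∈ S) = (Icc 1 y).filter (fun n => n ∈ S) := by
      ext n
      simp only [mem_filter, mem_Icc, mem_range]
      constructor
      · rintro ⟨h7, h8⟩
        exact ⟨⟨(hp n h8).one_lt.le, by omega⟩, h8⟩
      · rintro ⟨h7, h8⟩
        exact ⟨by omega, h8⟩
    rw [h6, h7]
    refine sum_le_sum fun n hn => ?_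
    have hn1 : (1 : ℝ) ≤ n := by exact_mod_cast (hp n (mem_filter.1 hn).2).one_lt.le
    simp only [hw]
    exact one_div_le_one_div_of_le (by linarith) (by linarith)
  have h6 := mul_le_mul_of_nonneg_left h4 hδ.le
  have h7 : δ / 2 * MM y = δ * (1 / 2 * MM y) := by ring
  linarith

lemma MM_nonneg (y : ℕ) : 0 ≤ MM y := sum_nonneg fun _ _ => by positivity

open Classical in
/-- the number of classes -/
noncomputable def cc (S : Set ℕ) (w p : ℕ) : ℝ := if p ∈ S ∧ w < p then 2 else 1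

theorem sum_cc (S : Set ℕ) (hp : ∀ p ∈ S, p.Prime) (z w y : ℕ) :
    MM y + MS S y - 2 * MM z - MM w ≤ ∑ p ∈ PP z y, cc S w p / p := by
  classical
  have h0 : ∀ p ∈ PP z y, cc S w p / (p : ℝ) = 1 / p + if p ∈ S ∧ w < p then 1 / (p : ℝ) else 0 := by
    intro p _
    unfold cc
    split_ifs
    · ring
    · ring
  rw [sum_congr rfl h0, sum_add_distrib]
  have h1 : MM y ≤ ∑ p ∈ PP z y, 1 / (p : ℝ) + MM z := by
    unfold MM PP
    rw [← sum_union_inter]
    refine le_trans ?_ (le_add_of_nonneg_right (sum_nonneg fun _ _ => by positivity))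
    refine sum_le_sum_of_subset_of_nonneg ?_ fun _ _ _ => by positivity
    intro p hp
    rw [mem_filter, mem_Icc] at hp
    rw [mem_union, mem_filter, mem_Ioc, mem_filter, mem_Icc]
    by_cases h : p ≤ z
    · exact Or.inr ⟨⟨hp.1.1, h⟩, hp.2⟩
    · exact Or.inl ⟨⟨not_le.1 h, hp.1.2⟩, hp.2⟩
  have h2 : MS S y ≤ ∑ p ∈ PP z y, (if p ∈ S ∧ w < p then 1 / (p : ℝ) else 0) + MM z + MM w := by
    unfold MS MM PP
    rw [← sum_filter, filter_filter]
    have e1 : ∀ A B D E : Finset ℕ, A ⊆ B ∪ (D ∪ E) → ∑ p ∈ A, (1 : ℝ) / p ≤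
        ∑ p ∈ B, (1 : ℝ) / p + ∑ p ∈ D, (1 : ℝ) / p + ∑ p ∈ E, (1 : ℝ) / p := by
      intro A B D E h
      have e2 : ∀ A B : Finset ℕ, ∑ p ∈ A ∪ B, (1 : ℝ) / p ≤ ∑ p ∈ A, (1 : ℝ) / p + ∑ p ∈ B, (1 : ℝ) / p := by
        intro A B
        rw [← sum_union_inter]
        exact le_add_of_nonneg_right (sum_nonneg fun _ _ => by positivity)
      have e3 := sum_le_sum_of_subset_of_nonneg (f := fun p : ℕ => (1 : ℝ) / p) h fun _ _ _ => by positivity
      have e4 := e2 B (D ∪ E)
      have e5 := e2 D E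
      linarith
    refine e1 _ _ _ _ ?_
    intro p hp'
    rw [mem_filter, mem_Icc] at hp'
    have hpr := hp p hp'.2
    rw [mem_union, mem_union, mem_filter, mem_Ioc, mem_filter, mem_Icc, mem_filter, mem_Icc]
    by_cases h : p ≤ z
    · exact Or.inr (Or.inl ⟨⟨hp'.1.1, h⟩, hpr⟩)
    · by_cases h' : p ≤ w
      · exact Or.inr (Or.inr ⟨⟨hp'.1.1, h'⟩, hpr⟩)
      · exact Or.inl ⟨⟨not_le.1 h, hp'.1.2⟩, hpr, hp'.2, not_le.1 h'⟩
  linarith

/-- the product -/
theorem prod_cc (S : Set ℕ) (hS : Dense S) (hp : ∀ p ∈ S, p.Prime) (z : ℕ) :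
    ∃ δ C : ℝ, 0 < δ ∧ 0 ≤ C ∧ ∀ w y : ℕ, 3 ≤ w → 3 ≤ y →
      ∏ p ∈ PP z y, (1 - cc S w p / (p : ℝ)) ≤ C * (Real.log w / Real.log y ^ (1 + δ)) := by
  classical
  obtain ⟨δ, C1, hδ, h1⟩ := dense_sum hS hp
  obtain ⟨CM, hCM⟩ := Pool.Agent.Erdos456.Mert.mertens_inv
  set C5 : ℝ := (1 + δ) * CM + C1 + 2 * MM z + CM with hC5
  refine ⟨δ, Real.exp C5, hδ, (Real.exp_pos _).le, fun w y hw hy => ?_⟩
  have hw' : (3 : ℝ) ≤ w := by exact_mod_cast hw
  have hy' : (3 : ℝ) ≤ y := by exact_mod_cast hy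
  have hlw : 0 < Real.log w := Real.log_pos (by linarith)
  have hly : 0 < Real.log y := Real.log_pos (by linarith)
  have h2 : ∏ p ∈ PP z y, (1 - cc S w p / (p : ℝ)) ≤ Real.exp (-∑ p ∈ PP z y, cc S w p / (p : ℝ)) := by
    rw [← sum_neg_distrib, Real.exp_sum]
    refine prod_le_prod (fun p hp' => ?_) fun p _ => ?_
    · have hp2 : (2 : ℝ) ≤ p := by
        unfold PP at hp'
        exact_mod_cast (mem_filter.1 hp').2.two_le
      rw [sub_nonneg, div_le_one (by linarith)]
      unfold cc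
      split_ifs
      · exact hp2
      · linarith
    · exact Real.one_sub_le_exp_neg _
  have h3 := sum_cc S hp z w y
  have h4 : Real.log (Real.log y) - CM ≤ MM y := by
    have := (abs_le.1 (hCM y hy)).1
    unfold MM
    linarith
  have h5 : MM w ≤ Real.log (Real.log w) + CM := by
    have := (abs_le.1 (hCM w hw)).2
    unfold MM
    linarith
  have h6 := h1 y
  have h7 : (1 + δ) * (Real.log (Real.log y) - CM) ≤ (1 + δ) * MM y :=
    mul_le_mul_of_nonneg_left h4 (by linarith)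
  have h8 : -∑ p ∈ PP z y, cc S w p / (p : ℝ) ≤
      C5 + Real.log (Real.log w) + (-(1 + δ)) * Real.log (Real.log y) := by
    rw [hC5]
    linarith
  refine h2.trans ((Real.exp_le_exp.2 h8).trans (le_of_eq ?_))
  rw [Real.exp_add, Real.exp_add, Real.exp_log hlw, mul_assoc, div_eq_mul_inv, ← Real.rpow_neg hly.le,
    Real.rpow_def_of_pos hly, mul_comm (Real.log (Real.log _))]

end Pool.Agent.V5helper45.PQ
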