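import Pool.Agent.V5helper45.PQ.Crt
import Pool.Agent.TH915.UC.BT

/-! Vectors of primes and integers in boxes. -/

set_option autoImplicit false

namespace Pool.Agent.V5helper45.PQ

open Finset

/-- Brun-Titchmarsh in short intervals (copy of `Pool.Agent.TH915.UC.primes_interval`, whose file has more imports) -/
theorem primes_interval (q a u g : ℕ) (hq : 0 < q) (hg : q ^ 2 ≤ g) (hg4 : 4 ≤ g) :
    (((Ioc u (u + g)).filter (fun p => p.Prime ∧ p ≡ a [MOD q])).card : ℝ) ≤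
      88 * g / (q.totient * Real.log g) := by
  classical
  have hφ : (0 : ℝ) < q.totient := by exact_mod_cast Nat.totient_pos.2 hq
  have hq' : (0 : ℝ) < q := by exact_mod_cast hq
  have hg4' : (4 : ℝ) ≤ g := by exact_mod_cast hg4
  have hlg : 0 < Real.log g := Real.log_pos (by linarith)
  set Q := (Ioc u (u + g)).filter (fun p => p.Prime ∧ p ≡ a [MOD q]) with hQ
  rcases Q.eq_empty_or_nonempty with h0 | hne
  · rw [h0]
    simp only [card_empty, Nat.cast_zero]
    positivity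
  set p0 := Q.min' hne with hp0
  have hp0Q : p0 ∈ Q := Q.min'_mem hne
  have hp0' := hp0Q
  rw [hQ, mem_filter, mem_Ioc] at hp0'
  set N := g / q + 1 with hN
  have hsub : Q ⊆ ((range N).filter (fun k => (p0 + k * q).Prime)).image (fun k => p0 + k * q) := by
    intro p hp
    have hmin : p0 ≤ p := Q.min'_le p hp
    rw [hQ, mem_filter, mem_Ioc] at hp
    have h1 : q ∣ p - p0 := (Nat.modEq_iff_dvd' hmin).1 (hp0'.2.2.trans hp.2.2.symm)
    obtain ⟨k, hk⟩ := h1
    have h2 : p = p0 + k * q := by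
      rw [mul_comm]; omega
    rw [mem_image]
    refine ⟨k, ?_, h2.symm⟩
    rw [mem_filter, mem_range, hN, Nat.lt_succ_iff, Nat.le_div_iff_mul_le hq]
    refine ⟨?_, by rw [← h2]; exact hp.2.1⟩
    have : k * q = p - p0 := by omega
    omega
  have hgq : q ≤ g / q := by
    rw [Nat.le_div_iff_mul_le hq]
    nlinarith
  have hN2 : 2 ≤ N := by omega
  have h1 := Pool.Agent.TH915.UC.bt_gen p0 q N hq hN2
  have h2 : (Q.card : ℝ) ≤ (((range N).filter (fun k => (p0 + k * q).Prime)).card : ℝ) := by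
    exact_mod_cast (card_le_card hsub).trans card_image_le
  refine h2.trans (h1.trans ?_)
  have hN0 : (0 : ℝ) < N := by positivity
  have hdiv : ((g / q : ℕ) : ℝ) ≤ (g : ℝ) / q := Nat.cast_div_le
  have hgq' : (1 : ℝ) ≤ (g : ℝ) / q := by
    rw [le_div_iff₀ hq', one_mul]
    have : q ≤ g := le_trans hgq (Nat.div_le_self _ _)
    exact_mod_cast this
  have hN3 : (N : ℝ) ≤ 2 * (g / q) := by
    rw [hN]; push_cast; linarith
  have hNlow : (g : ℝ) ≤ (N : ℝ) ^ 2 := by
    have h3 : g < N * q := by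
      rw [hN]
      have := Nat.lt_div_mul_add (a := g) hq
      nlinarith [Nat.div_mul_le_self g q]
    have h4 : q ≤ N := by omega
    have h5 : g ≤ N ^ 2 := by nlinarith
    exact_mod_cast h5
  have hlN : Real.log g / 2 ≤ Real.log N := by
    have h3 := Real.log_le_log (by linarith) hNlow
    rw [Real.log_pow] at h3
    push_cast at h3
    linarith
  have hlN0 : 0 < Real.log N := by linarith
  calc 22 * ((q : ℝ) / q.totient) * N / Real.log N ≤
      22 * ((q : ℝ) / q.totient) * (2 * (g / q)) / (Real.log g / 2) := by gcongr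
    _ = 88 * g / (q.totient * Real.log g) := by
      field_simp
      norm_num

variable {ι : Type} [Fintype ι]

open Classical in
/-- the weight of a side of length `g`: `g / log g` at the places in `P`, `g` at the others -/
noncomputable def wt (P : Set ι) (i : ι) (g : ℕ) : ℝ := if i ∈ P then (g : ℝ) / Real.log g else g

/-- the vectors in the box with the sides `(u i, u i + g i]`, with primes at the places in `P`, which belong to `B` -/
def InBox (P : Set ι) (B : Set (ι → ℤ)) (u g : ι → ℕ) : Set (ι → ℕ) :=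
  {c | (∀ i, u i < c i ∧ c i ≤ u i + g i) ∧ (∀ i ∈ P, (c i).Prime) ∧ (fun i => (c i : ℤ)) ∈ B}

/-- few vectors in boxes -/
def Few (P : Set ι) (B : Set (ι → ℤ)) : Prop :=
  ∀ ε : ℝ, 0 < ε → ∃ g₀ : ℕ, ∀ u g : ι → ℕ, (∀ i, g₀ ≤ g i) →
    ((InBox P B u g).ncard : ℝ) ≤ ε * ∏ i, wt P i (g i)

lemma wt_ge (P : Set ι) (i : ι) (g : ℕ) (hg : 4 ≤ g) : Real.sqrt g / 2 ≤ wt P i g := by
  classical
  have hg' : (4 : ℝ) ≤ g := by exact_mod_cast hg
  have hs : 2 ≤ Real.sqrt g := by
    rw [show (2 : ℝ) = Real.sqrt 4 by rw [show (4 : ℝ) = 2 ^ 2 by norm_num, Real.sqrt_sq (by norm_num)]]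
    exact Real.sqrt_le_sqrt hg'
  have hsq : Real.sqrt g * Real.sqrt g = g := Real.mul_self_sqrt (by linarith)
  unfold wt
  split_ifs
  · have hl : 0 < Real.log g := Real.log_pos (by linarith)
    have h1 : Real.log g ≤ 2 * Real.sqrt g := by
      have h2 : Real.log g = 2 * Real.log (Real.sqrt g) := by
        rw [Real.log_sqrt (by linarith)]
        ring
      have h3 := Real.log_le_self (show (0 : ℝ) ≤ Real.sqrt g by positivity)
      rw [h2]
      linarith
    rw [le_div_iff₀ hl]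
    calc Real.sqrt g / 2 * Real.log g ≤ Real.sqrt g / 2 * (2 * Real.sqrt g) :=
          mul_le_mul_of_nonneg_left h1 (by positivity)
      _ = Real.sqrt g * Real.sqrt g := by ring
      _ = g := hsq
  · nlinarith

lemma wt_pos (P : Set ι) (i : ι) (g : ℕ) (hg : 4 ≤ g) : 0 < wt P i g := by
  have h1 := wt_ge P i g hg
  have hg' : (4 : ℝ) ≤ g := by exact_mod_cast hg
  have h2 : 0 < Real.sqrt g := Real.sqrt_pos.2 (by linarith)
  linarith

open Classical in
/-- a side -/
noncomputable def side (P : Set ι) (i : ι) (u g q : ℕ) (x : ZMod q) : Finset ℕ :=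
  (Ioc u (u + g)).filter fun n : ℕ => (i ∈ P → n.Prime) ∧ (n : ZMod q) = x

open Classical in
lemma side_card (P : Set ι) (i : ι) (u g q : ℕ) (hq : 0 < q) (hg : q ^ 2 ≤ g) (hg4 : 4 ≤ g) (x : ZMod q) :
    ((side P i u g q x).card : ℝ) ≤ 88 * wt P i g / (if i ∈ P then (q.totient : ℝ) else q) := by
  have : NeZero q := ⟨hq.ne'⟩
  have hmod : ∀ n : ℕ, (n : ZMod q) = x ↔ n ≡ x.val [MOD q] := by
    intro n
    rw [← ZMod.natCast_eq_natCast_iff, ZMod.natCast_zmod_val]
  unfold side wt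
  split_ifs with hi
  · have h1 := primes_interval q x.val u g hq hg hg4
    have h2 : ((Ioc u (u + g)).filter fun n : ℕ => (i ∈ P → n.Prime) ∧ (n : ZMod q) = x) =
        (Ioc u (u + g)).filter (fun p => p.Prime ∧ p ≡ x.val [MOD q]) := by
      refine filter_congr fun n _ => ?_
      rw [hmod]
      simp [hi]
    rw [h2]
    refine h1.trans (le_of_eq ?_)
    rw [mul_div_assoc, mul_div_assoc, div_div, mul_comm (Real.log _)]
  · have h2 : ((Ioc u (u + g)).filter fun n : ℕ => (i ∈ P → n.Prime) ∧ (n : ZMod q) = x) =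
        (Ioc u (u + g)).filter (fun p => p ≡ x.val [MOD q]) := by
      refine filter_congr fun n _ => ?_
      rw [hmod]
      simp [hi]
    rw [h2]
    have hq' : (0 : ℝ) < q := by exact_mod_cast hq
    have h3 := Nat.Ioc_filter_modEq_card u (u + g) hq x.val
    have h4 : ((((Ioc u (u + g)).filter (fun p => p ≡ x.val [MOD q])).card : ℤ) : ℝ) ≤ (g : ℝ) / q + 1 := by
      rw [h3]
      push_cast
      refine max_le ?_ (by positivity)
      have h5 := Int.floor_le ((((u : ℚ) + g) - x.val) / q)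
      have h6 := Int.lt_floor_add_one (((u : ℚ) - x.val) / q)
      have h7 : ((⌊(((u : ℚ) + g) - x.val) / q⌋ : ℤ) : ℚ) - ((⌊((u : ℚ) - x.val) / q⌋ : ℤ) : ℚ) ≤ (g : ℚ) / q + 1 := by
        have h8 : (((u : ℚ) + g) - x.val) / q = ((u : ℚ) - x.val) / q + g / q := by
          rw [← add_div]
          congr 1
          ring
        linarith
      have h9 : (((((⌊(((u : ℚ) + g) - x.val) / q⌋ : ℤ) : ℚ) - ((⌊((u : ℚ) - x.val) / q⌋ : ℤ) : ℚ) : ℚ) : ℚ) : ℝ) ≤
          (((g : ℚ) / q + 1 : ℚ) : ℝ) := by exact_mod_cast h7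
      push_cast at h9
      exact h9
    have h10 : (1 : ℝ) ≤ g / q := by
      rw [le_div_iff₀ hq', one_mul]
      have : q ≤ g := le_trans (by nlinarith) hg
      exact_mod_cast this
    have h11 : (((Ioc u (u + g)).filter (fun p => p ≡ x.val [MOD q])).card : ℝ) =
      ((((Ioc u (u + g)).filter (fun p => p ≡ x.val [MOD q])).card : ℤ) : ℝ) := by push_cast; rfl
    rw [h11, mul_div_assoc]
    linarith

lemma inBox_finite (P : Set ι) (B : Set (ι → ℤ)) (u g : ι → ℕ) : (InBox P B u g).Finite := by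
  classical
  refine (Finset.finite_toSet (Fintype.piFinset fun i => Ioc (u i) (u i + g i))).subset ?_
  intro c hc
  rw [mem_coe, Fintype.mem_piFinset]
  exact fun i => mem_Ioc.2 (hc.1 i)

lemma Few.mono {P : Set ι} {B B' : Set (ι → ℤ)} (h : B ⊆ B') (hB : Few P B') : Few P B := by
  intro ε hε
  obtain ⟨g₀, hg⟩ := hB ε hε
  refine ⟨g₀, fun u g hug => le_trans ?_ (hg u g hug)⟩
  have h1 : InBox P B u g ⊆ InBox P B' u g := fun c hc => ⟨hc.1, hc.2.1, h hc.2.2⟩
  exact_mod_cast Set.ncard_le_ncard h1 (inBox_finite P B' u g)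

lemma Few.union {P : Set ι} {B B' : Set (ι → ℤ)} (hB : Few P B) (hB' : Few P B') : Few P (B ∪ B') := by
  intro ε hε
  obtain ⟨g₁, h1⟩ := hB (ε / 2) (by positivity)
  obtain ⟨g₂, h2⟩ := hB' (ε / 2) (by positivity)
  refine ⟨max g₁ g₂, fun u g hug => ?_⟩
  have h3 := h1 u g fun i => (le_max_left _ _).trans (hug i)
  have h4 := h2 u g fun i => (le_max_right _ _).trans (hug i)
  have h5 : InBox P (B ∪ B') u g ⊆ InBox P B u g ∪ InBox P B' u g := by
    rintro c ⟨h6, h7, h8⟩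
    rcases h8 with h8 | h8
    · exact Or.inl ⟨h6, h7, h8⟩
    · exact Or.inr ⟨h6, h7, h8⟩
  have h6 := (Set.ncard_le_ncard h5 ((inBox_finite P B u g).union (inBox_finite P B' u g))).trans
    (Set.ncard_union_le _ _)
  have h7 : ((InBox P (B ∪ B') u g).ncard : ℝ) ≤ (InBox P B u g).ncard + (InBox P B' u g).ncard := by
    exact_mod_cast h6
  linarith

lemma few_empty (P : Set ι) : Few P (∅ : Set (ι → ℤ)) := by
  intro ε hε
  refine ⟨4, fun u g hg => ?_⟩
  have h1 : InBox P (∅ : Set (ι → ℤ)) u g = ∅ := by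
    rw [Set.eq_empty_iff_forall_notMem]
    rintro c ⟨-, -, h⟩
    exact h
  rw [h1, Set.ncard_empty, Nat.cast_zero]
  exact mul_nonneg hε.le (prod_nonneg fun i _ => (wt_pos P i (g i) (hg i)).le)

lemma few_biUnion {P : Set ι} {α : Type} (Δ : Finset α) (B : α → Set (ι → ℤ)) (h : ∀ s ∈ Δ, Few P (B s)) :
    Few P (⋃ s ∈ Δ, B s) := by
  classical
  induction Δ using Finset.induction_on with
  | empty => simpa using few_empty P
  | insert a Δ ha ih =>
    rw [Finset.set_biUnion_insert]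
    exact (h a (mem_insert_self _ _)).union (ih fun s hs => h s (mem_insert_of_mem hs))

theorem few_of_im (P : Set ι) (B : Set (ι → ℤ))
    (h : ∀ ε : ℝ, 0 < ε → ∃ q : ℕ, 0 < q ∧
      (im q {x | x ∈ B ∧ ∀ i ∈ P, IsCoprime (x i) (q : ℤ)} : ℝ) ≤ ε * tot P q) : Few P B := by
  classical
  intro ε hε
  set k := Fintype.card ι with hk
  set ε' : ℝ := ε / ((k + 1) * 88 ^ k) with hε'
  have hε'0 : 0 < ε' := by positivity
  obtain ⟨q, hq, him⟩ := h ε' hε'0
  have : NeZero q := ⟨hq.ne'⟩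
  have hq0 : (0 : ℝ) < q := by exact_mod_cast hq
  refine ⟨max (max 4 (q ^ 2)) ⌈(2 * q / ε') ^ 2⌉₊, fun u g hg => ?_⟩
  have hg4 : ∀ i, 4 ≤ g i := fun i => ((le_max_left _ _).trans (le_max_left _ _)).trans (hg i)
  have hgq : ∀ i, q ^ 2 ≤ g i := fun i => ((le_max_right _ _).trans (le_max_left _ _)).trans (hg i)
  have hgε : ∀ i, (q : ℝ) ≤ ε' * wt P i (g i) := by
    intro i
    have h1 : (2 * q / ε') ^ 2 ≤ (g i : ℝ) := (Nat.le_ceil _).trans (by
      exact_mod_cast (le_max_right _ _).trans (hg i))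
    have h2 : 2 * q / ε' ≤ Real.sqrt (g i) := Real.le_sqrt_of_sq_le h1
    have h3 := wt_ge P i (g i) (hg4 i)
    rw [div_le_iff₀ hε'0] at h2
    nlinarith
  have hw : ∀ i, 0 < wt P i (g i) := fun i => wt_pos P i (g i) (hg4 i)
  set T : Set (ι → ZMod q) := (fun (c : ι → ℤ) (i : ι) => (c i : ZMod q)) ''
    {x | x ∈ B ∧ ∀ i ∈ P, IsCoprime (x i) (q : ℤ)} with hT
  have hTf : T.Finite := Set.toFinite T
  set S1 : Finset (ι → ℕ) := hTf.toFinset.biUnion fun x =>
    Fintype.piFinset fun i => side P i (u i) (g i) q (x i) with hS1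
  set S2 : Finset (ι → ℕ) := univ.biUnion fun i : ι =>
    Fintype.piFinset fun j => if j = i then Ioc 0 q else side P j (u j) (g j) 1 0 with hS2
  have hsub : InBox P B u g ⊆ ((S1 ∪ S2 : Finset (ι → ℕ)) : Set (ι → ℕ)) := by
    rintro c ⟨h1, h2, h3⟩
    rw [mem_coe, mem_union]
    by_cases hc : ∀ i ∈ P, IsCoprime ((c i : ℕ) : ℤ) (q : ℤ)
    · left
      rw [hS1, mem_biUnion]
      refine ⟨fun i => (((c i : ℕ) : ℤ) : ZMod q), ?_, ?_⟩
      · rw [Set.Finite.mem_toFinset]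
        exact ⟨fun i => ((c i : ℕ) : ℤ), ⟨h3, hc⟩, rfl⟩
      · rw [Fintype.mem_piFinset]
        intro i
        unfold side
        rw [mem_filter, mem_Ioc]
        exact ⟨h1 i, h2 i, by push_cast; rfl⟩
    · right
      push Not at hc
      obtain ⟨i, hi, hci⟩ := hc
      rw [hS2, mem_biUnion]
      refine ⟨i, mem_univ _, ?_⟩
      rw [Fintype.mem_piFinset]
      intro j
      by_cases hj : j = i
      · rw [if_pos hj, hj, mem_Ioc]
        refine ⟨(h2 i hi).pos, ?_⟩
        by_contra hlt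
        apply hci
        rw [Nat.isCoprime_iff_coprime]
        refine (Nat.Prime.coprime_iff_not_dvd (h2 i hi)).2 fun hd => ?_
        exact hlt (Nat.le_of_dvd hq hd)
      · rw [if_neg hj]
        unfold side
        rw [mem_filter, mem_Ioc]
        exact ⟨h1 j, h2 j, Subsingleton.elim _ _⟩
  have h1 : (InBox P B u g).ncard ≤ S1.card + S2.card := by
    refine (Set.ncard_le_ncard hsub (Finset.finite_toSet _)).trans ?_
    rw [Set.ncard_coe_finset]
    exact card_union_le _ _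
  have hW0 : 0 ≤ ∏ i, wt P i (g i) := prod_nonneg fun i _ => (hw i).le
  have hbig : ∏ i : ι, (88 * wt P i (g i)) = 88 ^ k * ∏ i, wt P i (g i) := by
    rw [prod_mul_distrib, prod_const, card_univ]
  have h2 : (S1.card : ℝ) ≤ ε' * (88 ^ k * ∏ i, wt P i (g i)) := by
    have h3 : (S1.card : ℝ) ≤ ∑ x ∈ hTf.toFinset, ∏ i : ι, ((side P i (u i) (g i) q (x i)).card : ℝ) := by
      have := card_biUnion_le (s := hTf.toFinset) (t := fun x =>
        Fintype.piFinset fun i => side P i (u i) (g i) q (x i))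
      refine le_trans (Nat.cast_le.2 this) (le_of_eq ?_)
      push_cast
      refine sum_congr rfl fun x _ => ?_
      rw [Fintype.card_piFinset]
      push_cast
      rfl
    have h4 : ∀ x ∈ hTf.toFinset, ∏ i : ι, ((side P i (u i) (g i) q (x i)).card : ℝ) ≤
        (88 ^ k * ∏ i, wt P i (g i)) / tot P q := by
      intro x _
      rw [← hbig]
      unfold tot
      rw [← prod_div_distrib]
      exact prod_le_prod (fun i _ => Nat.cast_nonneg _) fun i _ =>
        side_card P i (u i) (g i) q hq (hgq i) (hg4 i) (x i)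
    have h5 := sum_le_sum h4
    rw [sum_const, nsmul_eq_mul, ← Set.ncard_eq_toFinset_card T hTf] at h5
    have h6 : (T.ncard : ℝ) ≤ ε' * tot P q := him
    have ht := tot_pos P hq
    refine h3.trans (h5.trans ?_)
    calc (T.ncard : ℝ) * ((88 ^ k * ∏ i, wt P i (g i)) / tot P q)
        ≤ (ε' * tot P q) * ((88 ^ k * ∏ i, wt P i (g i)) / tot P q) :=
          mul_le_mul_of_nonneg_right h6 (by positivity)
      _ = _ := by field_simp
  have h3 : (S2.card : ℝ) ≤ k * (ε' * (88 ^ k * ∏ i, wt P i (g i))) := by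
    have h4 : (S2.card : ℝ) ≤ ∑ i : ι, ∏ j : ι,
        (((if j = i then Ioc 0 q else side P j (u j) (g j) 1 0 : Finset ℕ).card : ℕ) : ℝ) := by
      have := card_biUnion_le (s := (univ : Finset ι)) (t := fun i =>
        Fintype.piFinset fun j => if j = i then Ioc 0 q else side P j (u j) (g j) 1 0)
      refine le_trans (Nat.cast_le.2 this) (le_of_eq ?_)
      push_cast
      refine sum_congr rfl fun x _ => ?_
      rw [Fintype.card_piFinset]
      push_cast
      rfl
    have h5 : ∀ i ∈ (univ : Finset ι), ∏ j : ι,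
        (((if j = i then Ioc 0 q else side P j (u j) (g j) 1 0 : Finset ℕ).card : ℕ) : ℝ) ≤
        ε' * (88 ^ k * ∏ i, wt P i (g i)) := by
      intro i _
      have h6 : ∏ j : ι, ((if j = i then ε' else 1) * (88 * wt P j (g j))) =
          ε' * (88 ^ k * ∏ i, wt P i (g i)) := by
        rw [prod_mul_distrib, hbig, prod_ite_eq' univ i (fun _ => ε'), if_pos (mem_univ _)]
      rw [← h6]
      refine prod_le_prod (fun j _ => Nat.cast_nonneg _) fun j _ => ?_
      by_cases hj : j = i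
      · rw [if_pos hj, if_pos hj, Nat.card_Ioc]
        have h7 := hgε j
        have h8 := hw j
        have h9 : 0 ≤ ε' * wt P j (g j) := by positivity
        rw [Nat.sub_zero]
        nlinarith
      · rw [if_neg hj, if_neg hj, one_mul]
        have h7 := side_card P j (u j) (g j) 1 one_pos (by
          have := hg4 j
          omega) (hg4 j) 0
        refine h7.trans (le_of_eq ?_)
        rw [Nat.totient_one, Nat.cast_one]
        split_ifs <;> rw [div_one]
    refine h4.trans ((sum_le_sum h5).trans (le_of_eq ?_))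
    rw [sum_const, nsmul_eq_mul, card_univ]
  have h4 : ((InBox P B u g).ncard : ℝ) ≤ S1.card + S2.card := by exact_mod_cast h1
  refine h4.trans ((add_le_add h2 h3).trans (le_of_eq ?_))
  rw [hε']
  field_simp
  ring

/-- the criterion -/
theorem few_crit (P : Set ι) (Ω : ∀ p : ℕ, Set (ι → ZMod (p ^ 2))) (S : Set ℕ)
    (hdiv : ∀ B : ℝ, ∃ N : ℕ, B ≤ ∑ n ∈ range N, Set.indicator S (fun _ => (1 : ℝ)) n * (1 / ((n : ℝ) + 1)))
    (hS : ∀ p ∈ S, p.Prime ∧ (∀ x ∈ Ω p, ∀ i ∈ P, IsUnit (x i)) ∧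
      1 / (4 * (p : ℝ)) * (((p ^ 2 : ℕ) : ℝ)) ^ Fintype.card ι ≤ ((Ω p).ncard : ℝ)) :
    Few P {c : ι → ℤ | ¬ ∃ p ∈ S, (fun i => (c i : ZMod (p ^ 2))) ∈ Ω p} := by
  classical
  refine few_of_im P _ fun ε hε => ?_
  obtain ⟨N, hN⟩ := hdiv (4 * Real.log (1 / ε))
  set Q := (range N).filter (fun p => p ∈ S) with hQ
  have hQS : ∀ p ∈ Q, p ∈ S := fun p hp => (mem_filter.1 hp).2
  have hq : 0 < ∏ p ∈ Q, p ^ 2 := prod_pos fun p hp => pow_pos (hS p (hQS p hp)).1.pos 2
  refine ⟨∏ p ∈ Q, p ^ 2, hq, ?_⟩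
  have h1 := im_prod P Ω (fun p => 1 / (4 * (p : ℝ))) Q fun p hp =>
    ⟨(hS p (hQS p hp)).1, (hS p (hQS p hp)).2.1, by positivity, (hS p (hQS p hp)).2.2⟩
  have h2 := im_mono hq (B := {x : ι → ℤ | x ∈ {c : ι → ℤ | ¬ ∃ p ∈ S, (fun i => (c i : ZMod (p ^ 2))) ∈ Ω p} ∧
      ∀ i ∈ P, IsCoprime (x i) ((∏ p ∈ Q, p ^ 2 : ℕ) : ℤ)})
    (B' := {x : ι → ℤ | (∀ i ∈ P, IsCoprime (x i) ((∏ p ∈ Q, p ^ 2 : ℕ) : ℤ)) ∧
      ∀ p ∈ Q, (fun i => (x i : ZMod (p ^ 2))) ∉ Ω p})
    (fun x hx => ⟨hx.2, fun p hp hxp => hx.1 ⟨p, hQS p hp, hxp⟩⟩)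
  have h3 : ∏ p ∈ Q, (1 - 1 / (4 * (p : ℝ))) ≤ ε := by
    have h4 : ∏ p ∈ Q, (1 - 1 / (4 * (p : ℝ))) ≤ ∏ p ∈ Q, Real.exp (-(1 / (4 * (p : ℝ)))) := by
      refine prod_le_prod (fun p hp => ?_) fun p _ => Real.one_sub_le_exp_neg _
      have hp1 : (1 : ℝ) ≤ p := by exact_mod_cast (hS p (hQS p hp)).1.one_lt.le
      rw [sub_nonneg, div_le_one (by positivity)]
      linarith
    rw [← Real.exp_sum, sum_neg_distrib] at h4
    have h5 : Real.log (1 / ε) ≤ ∑ p ∈ Q, 1 / (4 * (p : ℝ)) := by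
      have h6 : ∑ n ∈ range N, Set.indicator S (fun _ => (1 : ℝ)) n * (1 / ((n : ℝ) + 1)) ≤
          ∑ p ∈ Q, 4 * (1 / (4 * (p : ℝ))) := by
        rw [hQ, sum_filter]
        refine sum_le_sum fun p _ => ?_
        by_cases hp : p ∈ S
        · have hp0 : (0 : ℝ) < p := by exact_mod_cast (hS p hp).1.pos
          rw [if_pos hp, Set.indicator_of_mem hp, one_mul]
          have e : 4 * (1 / (4 * (p : ℝ))) = 1 / (p : ℝ) := by field_simp
          rw [e]
          exact one_div_le_one_div_of_le hp0 (by linarith)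
        · rw [if_neg hp, Set.indicator_of_notMem hp, zero_mul]
      rw [← mul_sum] at h6
      linarith
    refine h4.trans ?_
    calc Real.exp (-∑ p ∈ Q, 1 / (4 * (p : ℝ))) ≤ Real.exp (-Real.log (1 / ε)) :=
          Real.exp_le_exp.2 (by linarith)
      _ = ε := by rw [Real.log_div one_ne_zero hε.ne', Real.log_one, zero_sub, neg_neg, Real.exp_log hε]
  have h6 : (im (∏ p ∈ Q, p ^ 2) {x : ι → ℤ | x ∈ {c : ι → ℤ | ¬ ∃ p ∈ S, (fun i => (c i : ZMod (p ^ 2))) ∈ Ω p} ∧
      ∀ i ∈ P, IsCoprime (x i) ((∏ p ∈ Q, p ^ 2 : ℕ) : ℤ)} : ℝ) ≤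
      (im (∏ p ∈ Q, p ^ 2) {x : ι → ℤ | (∀ i ∈ P, IsCoprime (x i) ((∏ p ∈ Q, p ^ 2 : ℕ) : ℤ)) ∧
        ∀ p ∈ Q, (fun i => (x i : ZMod (p ^ 2))) ∉ Ω p} : ℝ) := by exact_mod_cast h2
  refine h6.trans (h1.trans ?_)
  rw [mul_comm ε]
  exact mul_le_mul_of_nonneg_left h3 (tot_nonneg P _)

end Pool.Agent.V5helper45.PQ
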