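import Mathlib

/-! Residue vectors some of whose coordinates are units: the Chinese remainder theorem. -/

set_option autoImplicit false

namespace Pool.Agent.V5helper45.PQ

open Finset

variable {ι : Type} [Fintype ι]

/-- the number of residue vectors modulo `q` of the elements of `B` -/
noncomputable def im (q : ℕ) (B : Set (ι → ℤ)) : ℕ := ((fun (c : ι → ℤ) (i : ι) => (c i : ZMod q)) '' B).ncard

open Classical in
/-- the number of the residue vectors modulo `q` with units at the places in `P` -/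
noncomputable def tot (P : Set ι) (q : ℕ) : ℝ := ∏ i : ι, if i ∈ P then (q.totient : ℝ) else (q : ℝ)

lemma im_mono {q : ℕ} (hq : 0 < q) {B B' : Set (ι → ℤ)} (h : B ⊆ B') : im q B ≤ im q B' := by
  have : NeZero q := ⟨hq.ne'⟩
  exact Set.ncard_le_ncard (Set.image_mono h) (Set.toFinite _)

lemma im_mul {q₁ q₂ : ℕ} (h1 : 0 < q₁) (h2 : 0 < q₂) (hc : Nat.Coprime q₁ q₂) (B : Set (ι → ℤ)) :
    im (q₁ * q₂) B ≤ im q₁ B * im q₂ B := by
  have : NeZero q₁ := ⟨h1.ne'⟩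
  have : NeZero q₂ := ⟨h2.ne'⟩
  have : NeZero (q₁ * q₂) := ⟨(Nat.mul_pos h1 h2).ne'⟩
  unfold im
  rw [← Set.ncard_prod]
  refine Set.ncard_le_ncard_of_injOn (fun x => ((fun i => ZMod.castHom (dvd_mul_right q₁ q₂) (ZMod q₁) (x i)),
    (fun i => ZMod.castHom (dvd_mul_left q₂ q₁) (ZMod q₂) (x i)))) ?_ ?_ (Set.toFinite _)
  · rintro x ⟨c, hcB, rfl⟩
    refine ⟨⟨c, hcB, ?_⟩, ⟨c, hcB, ?_⟩⟩
    · funext i
      simp
    · funext i
      simp
  · rintro x ⟨c, hcB, rfl⟩ y ⟨c', hcB', rfl⟩ hxy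
    have e1 := congrArg Prod.fst hxy
    have e2 := congrArg Prod.snd hxy
    funext i
    have e3 : ((c i : ℤ) : ZMod q₁) = ((c' i : ℤ) : ZMod q₁) := by
      have := congrFun e1 i
      simpa using this
    have e4 : ((c i : ℤ) : ZMod q₂) = ((c' i : ℤ) : ZMod q₂) := by
      have := congrFun e2 i
      simpa using this
    rw [ZMod.intCast_eq_intCast_iff_dvd_sub] at e3 e4
    change ((c i : ℤ) : ZMod (q₁ * q₂)) = ((c' i : ℤ) : ZMod (q₁ * q₂))
    rw [ZMod.intCast_eq_intCast_iff_dvd_sub]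
    push_cast
    exact IsCoprime.mul_dvd (Nat.isCoprime_iff_coprime.2 hc) e3 e4

lemma tot_mul (P : Set ι) {q₁ q₂ : ℕ} (hc : Nat.Coprime q₁ q₂) : tot P (q₁ * q₂) = tot P q₁ * tot P q₂ := by
  classical
  unfold tot
  rw [← prod_mul_distrib]
  refine prod_congr rfl fun i _ => ?_
  split_ifs
  · rw [Nat.totient_mul hc]
    push_cast
    rfl
  · push_cast
    rfl

lemma tot_nonneg (P : Set ι) (q : ℕ) : 0 ≤ tot P q := by
  classical
  unfold tot
  refine prod_nonneg fun i _ => ?_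
  split_ifs <;> positivity

lemma tot_pos (P : Set ι) {q : ℕ} (hq : 0 < q) : 0 < tot P q := by
  classical
  unfold tot
  refine prod_pos fun i _ => ?_
  split_ifs
  · exact_mod_cast Nat.totient_pos.2 hq
  · exact_mod_cast hq

lemma tot_le (P : Set ι) (q : ℕ) : tot P q ≤ (q : ℝ) ^ Fintype.card ι := by
  classical
  unfold tot
  rw [← card_univ, ← prod_const]
  refine prod_le_prod (fun i _ => ?_) fun i _ => ?_
  · split_ifs <;> positivity
  · split_ifs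
    · exact_mod_cast Nat.totient_le q
    · exact le_refl _

lemma ncard_units (P : Set ι) (q : ℕ) [NeZero q] :
    (({x : ι → ZMod q | ∀ i ∈ P, IsUnit (x i)}.ncard : ℕ) : ℝ) = tot P q := by
  classical
  have h1 : {x : ι → ZMod q | ∀ i ∈ P, IsUnit (x i)} =
      ((Fintype.piFinset fun i => if i ∈ P then (univ.filter fun y : ZMod q => IsUnit y) else univ :
        Finset (ι → ZMod q)) : Set (ι → ZMod q)) := by
    ext x
    simp only [Set.mem_ofPred_eq, mem_coe, Fintype.mem_piFinset]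
    constructor
    · intro h i
      by_cases hi : i ∈ P
      · rw [if_pos hi, mem_filter]
        exact ⟨mem_univ _, h i hi⟩
      · rw [if_neg hi]
        exact mem_univ _
    · intro h i hi
      have := h i
      rw [if_pos hi, mem_filter] at this
      exact this.2
  have h2 : (univ.filter fun y : ZMod q => IsUnit y).card = q.totient := by
    have h3 : (univ.filter fun y : ZMod q => IsUnit y) = univ.image (Units.val : (ZMod q)ˣ → ZMod q) := by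
      ext y
      simp only [mem_filter, mem_univ, true_and, mem_image]
      exact Iff.rfl
    rw [h3, card_image_of_injective _ Units.val_injective, card_univ, ZMod.card_units_eq_totient]
  rw [h1, Set.ncard_coe_finset, Fintype.card_piFinset]
  unfold tot
  push_cast
  refine prod_congr rfl fun i _ => ?_
  split_ifs
  · rw [h2]
  · rw [card_univ, ZMod.card]

/-- one prime -/
lemma im_one (P : Set ι) {q : ℕ} (hq : 0 < q) (Ω : Set (ι → ZMod q)) (hΩ : ∀ x ∈ Ω, ∀ i ∈ P, IsUnit (x i))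
    (c : ℝ) (hc0 : 0 ≤ c) (hc : c * (q : ℝ) ^ Fintype.card ι ≤ (Ω.ncard : ℝ)) :
    (im q {x : ι → ℤ | (∀ i ∈ P, IsCoprime (x i) (q : ℤ)) ∧ (fun i => (x i : ZMod q)) ∉ Ω} : ℝ) ≤
      tot P q * (1 - c) := by
  classical
  have : NeZero q := ⟨hq.ne'⟩
  have hU := ncard_units P q
  have hsub : Ω ⊆ {x : ι → ZMod q | ∀ i ∈ P, IsUnit (x i)} := hΩ
  have h1 : im q {x : ι → ℤ | (∀ i ∈ P, IsCoprime (x i) (q : ℤ)) ∧ (fun i => (x i : ZMod q)) ∉ Ω} ≤
      ({x : ι → ZMod q | ∀ i ∈ P, IsUnit (x i)} \ Ω).ncard := by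
    refine Set.ncard_le_ncard ?_ (Set.toFinite _)
    rintro _ ⟨x, ⟨hx1, hx2⟩, rfl⟩
    refine ⟨fun i hi => ?_, hx2⟩
    change IsUnit ((x i : ℤ) : ZMod q)
    obtain ⟨a, b, hab⟩ := hx1 i hi
    have h3 := congrArg (fun z : ℤ => (z : ZMod q)) hab
    simp only [Int.cast_add, Int.cast_mul, Int.cast_natCast, CharP.cast_eq_zero, mul_zero, add_zero,
      Int.cast_one] at h3
    exact IsUnit.of_mul_eq_one _ (by rw [mul_comm]; exact h3)
  have h2 := Set.ncard_sdiff_add_ncard_of_subset hsub (Set.toFinite _)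
  have h3 : ((({x : ι → ZMod q | ∀ i ∈ P, IsUnit (x i)} \ Ω).ncard : ℕ) : ℝ) + (Ω.ncard : ℝ) = tot P q := by
    rw [← hU]
    exact_mod_cast h2
  have h4 : (im q {x : ι → ℤ | (∀ i ∈ P, IsCoprime (x i) (q : ℤ)) ∧ (fun i => (x i : ZMod q)) ∉ Ω} : ℝ) ≤
      ((({x : ι → ZMod q | ∀ i ∈ P, IsUnit (x i)} \ Ω).ncard : ℕ) : ℝ) := by exact_mod_cast h1
  have h5 : c * tot P q ≤ (Ω.ncard : ℝ) := (mul_le_mul_of_nonneg_left (tot_le P q) hc0).trans hc
  linarith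

/-- finitely many primes -/
theorem im_prod (P : Set ι) (Ω : ∀ p : ℕ, Set (ι → ZMod (p ^ 2))) (c : ℕ → ℝ) (Q : Finset ℕ)
    (hQ : ∀ p ∈ Q, p.Prime ∧ (∀ x ∈ Ω p, ∀ i ∈ P, IsUnit (x i)) ∧ 0 ≤ c p ∧
      c p * (((p ^ 2 : ℕ) : ℝ)) ^ Fintype.card ι ≤ ((Ω p).ncard : ℝ)) :
    (im (∏ p ∈ Q, p ^ 2) {x : ι → ℤ | (∀ i ∈ P, IsCoprime (x i) ((∏ p ∈ Q, p ^ 2 : ℕ) : ℤ)) ∧
      ∀ p ∈ Q, (fun i => (x i : ZMod (p ^ 2))) ∉ Ω p} : ℝ) ≤ tot P (∏ p ∈ Q, p ^ 2) * ∏ p ∈ Q, (1 - c p) := by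
  classical
  induction Q using Finset.induction_on with
  | empty =>
    simp only [prod_empty, mul_one]
    have h1 : im 1 {x : ι → ℤ | (∀ i ∈ P, IsCoprime (x i) ((1 : ℕ) : ℤ)) ∧
      ∀ p ∈ (∅ : Finset ℕ), (fun i => (x i : ZMod (p ^ 2))) ∉ Ω p} ≤ 1 := by
      unfold im
      exact (Set.ncard_le_one_iff (Set.toFinite _)).2 (fun {a b} _ _ => Subsingleton.elim a b)
    have h2 : tot P 1 = 1 := by
      unfold tot
      simp
    rw [h2]
    exact_mod_cast h1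
  | insert p Q hp ih =>
    have ih' := ih fun p' hp' => hQ p' (mem_insert_of_mem hp')
    obtain ⟨hpp, hΩ, hc0, hc⟩ := hQ p (mem_insert_self p Q)
    rw [prod_insert hp, prod_insert hp]
    have hcop : Nat.Coprime (p ^ 2) (∏ p ∈ Q, p ^ 2) := by
      refine Nat.Coprime.prod_right fun p' hp' => Nat.Coprime.pow 2 2 ?_
      refine (Nat.coprime_primes hpp (hQ p' (mem_insert_of_mem hp')).1).2 ?_
      rintro rfl
      exact hp hp'
    have hq1 : 0 < p ^ 2 := pow_pos hpp.pos 2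
    have hq2 : 0 < ∏ p ∈ Q, p ^ 2 := prod_pos fun p' hp' => pow_pos (hQ p' (mem_insert_of_mem hp')).1.pos 2
    set q := ∏ p ∈ Q, p ^ 2 with hq
    have h1 := im_mul hq1 hq2 hcop {x : ι → ℤ | (∀ i ∈ P, IsCoprime (x i) ((p ^ 2 * q : ℕ) : ℤ)) ∧
      ∀ p' ∈ insert p Q, (fun i => (x i : ZMod (p' ^ 2))) ∉ Ω p'}
    have h2 := im_mono (ι := ι) hq1 (B := {x : ι → ℤ | (∀ i ∈ P, IsCoprime (x i) ((p ^ 2 * q : ℕ) : ℤ)) ∧
      ∀ p' ∈ insert p Q, (fun i => (x i : ZMod (p' ^ 2))) ∉ Ω p'})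
      (B' := {x : ι → ℤ | (∀ i ∈ P, IsCoprime (x i) ((p ^ 2 : ℕ) : ℤ)) ∧ (fun i => (x i : ZMod (p ^ 2))) ∉ Ω p})
      (fun x hx => ⟨fun i hi => (hx.1 i hi).of_isCoprime_of_dvd_right (by push_cast; exact dvd_mul_right _ _),
        hx.2 p (mem_insert_self p Q)⟩)
    have h3 := im_mono (ι := ι) hq2 (B := {x : ι → ℤ | (∀ i ∈ P, IsCoprime (x i) ((p ^ 2 * q : ℕ) : ℤ)) ∧
      ∀ p' ∈ insert p Q, (fun i => (x i : ZMod (p' ^ 2))) ∉ Ω p'})
      (B' := {x : ι → ℤ | (∀ i ∈ P, IsCoprime (x i) (q : ℤ)) ∧ ∀ p' ∈ Q, (fun i => (x i : ZMod (p' ^ 2))) ∉ Ω p'})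
      (fun x hx => ⟨fun i hi => (hx.1 i hi).of_isCoprime_of_dvd_right (by push_cast; exact dvd_mul_left _ _),
        fun p' hp' => hx.2 p' (mem_insert_of_mem hp')⟩)
    have h4 := im_one P hq1 (Ω p) hΩ (c p) hc0 hc
    have h5 : (im (p ^ 2 * q) {x : ι → ℤ | (∀ i ∈ P, IsCoprime (x i) ((p ^ 2 * q : ℕ) : ℤ)) ∧
      ∀ p' ∈ insert p Q, (fun i => (x i : ZMod (p' ^ 2))) ∉ Ω p'} : ℝ) ≤
        (im (p ^ 2) {x : ι → ℤ | (∀ i ∈ P, IsCoprime (x i) ((p ^ 2 : ℕ) : ℤ)) ∧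
          (fun i => (x i : ZMod (p ^ 2))) ∉ Ω p} : ℝ) *
        (im q {x : ι → ℤ | (∀ i ∈ P, IsCoprime (x i) (q : ℤ)) ∧
          ∀ p' ∈ Q, (fun i => (x i : ZMod (p' ^ 2))) ∉ Ω p'} : ℝ) := by
      exact_mod_cast h1.trans (Nat.mul_le_mul h2 h3)
    rw [tot_mul P hcop]
    refine h5.trans ?_
    calc _ ≤ (tot P (p ^ 2) * (1 - c p)) * (tot P q * ∏ p ∈ Q, (1 - c p)) :=
          mul_le_mul h4 ih' (Nat.cast_nonneg _) (le_trans (Nat.cast_nonneg _) h4)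
      _ = _ := by ring

end Pool.Agent.V5helper45.PQ
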