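import Pool.Agent.V5helper45.PQ.Unit
import Pool.Agent.V5helper45.PQ.Box
import Pool.Agent.V5helper45.PV.Odd

/-! Twists by the values of polynomials at primes. -/

set_option autoImplicit false

namespace Pool.Agent.V5helper45.PQ

open Finset Polynomial Pool.Agent.R925.FD
open Pool.Agent.V5helper45.PV (toF toF_inj val_mul val_pow Om PersAt rootMult_map val_map_C TwoClosed odd_pers aeval_comm)

lemma Few.mono_prime {ι : Type} [Fintype ι] {P : Set ι} {B B' : Set (ι → ℤ)}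
    (h : ∀ x ∈ B, (∀ i ∈ P, x i ≠ 0) → x ∈ B') (hB : Few P B') : Few P B := by
  intro ε hε
  obtain ⟨g₀, hg⟩ := hB ε hε
  refine ⟨g₀, fun u g hug => le_trans ?_ (hg u g hug)⟩
  have h1 : InBox P B u g ⊆ InBox P B' u g := fun c hc => ⟨hc.1, hc.2.1, h _ hc.2.2 fun i hi => by
    have := (hc.2.1 i hi).ne_zero
    exact_mod_cast this⟩
  exact_mod_cast Set.ncard_le_ncard h1 (inBox_finite P B' u g)

/-- **The exceptional vectors are few.** -/
theorem few_main {K : Type} [Fintype K] (n : ℕ) (hn : 0 < n) (b : ℤ) (hb : b ≠ 0)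
    (g : K → ℤ[X]) (h : ℤ[X]) (hg0 : ∀ k, g k ≠ 0) (hh1 : 0 < h.natDegree) (hdeg : ∀ k, n ∣ (g k).natDegree)
    (hgg : ∀ k l, k ≠ l →
      IsCoprime ((g k).map (Int.castRingHom ℚ)) ((g l).map (Int.castRingHom ℚ)))
    (hgh : ∀ k, IsCoprime (h.map (Int.castRingHom ℚ)) ((g k).map (Int.castRingHom ℚ)))
    {κ : Type} [Fintype κ] (P : Finset (Option κ)) (Φ : (MvPolynomial κ ℤ)[X]) (hΦ : Φ ≠ 0)
    (A B : MvPolynomial κ (AlgebraicClosure ℚ)) (hA : A ≠ 0) (hB : none ∈ P → B ≠ 0) (e : ℕ)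
    (he : (Φ.map (toF κ)).rootMultiplicity
      (algebraMap _ (FractionRing (MvPolynomial κ (AlgebraicClosure ℚ))) B /
        algebraMap _ (FractionRing (MvPolynomial κ (AlgebraicClosure ℚ))) A) = e) :
    Few (P : Set (Option κ)) {c : Option κ → ℤ | ¬ ∀ m, ¬ m ∣ e → m ∣ h.natDegree → ∀ δ : K → ℚ, IsClass n b δ →
      (∀ (p : ℕ) [Fact p.Prime], CoveringHasPoint n m
        (Pool.Agent.V5helper45.PV.val Φ (fun i => c (some i)) (c none)) g h δ ℚ_[p]) →
        Pool.Agent.V5helper45.PV.PersistentOver n g h A B δ} := by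
  classical
  have hh0 : h ≠ 0 := by
    rintro rfl
    rw [natDegree_zero] at hh1
    exact lt_irrefl _ hh1
  rcases Nat.eq_zero_or_pos e with he0 | he1
  · refine Few.mono ?_ (few_empty _)
    intro c hc
    exfalso
    apply hc
    intro m hm
    rw [he0] at hm
    exact absurd (dvd_zero m) hm
  set t : ℕ := h.natDegree * (e + 1) with ht
  have ht1 : e + 1 ≤ t := by
    rw [ht]
    exact Nat.le_mul_of_pos_left _ hh1
  have hΦ' : Φ * mon P ^ t ≠ 0 := mul_ne_zero hΦ (pow_ne_zero _ (mon_ne P))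
  have he' : ((Φ * mon P ^ t).map (toF κ)).rootMultiplicity
      (algebraMap _ (FractionRing (MvPolynomial κ (AlgebraicClosure ℚ))) B /
        algebraMap _ (FractionRing (MvPolynomial κ (AlgebraicClosure ℚ))) A) = e := by
    rw [rootMult_mon P Φ hΦ t _ ?_, he]
    intro hP
    have hinj : Function.Injective (algebraMap (MvPolynomial κ (AlgebraicClosure ℚ))
      (FractionRing (MvPolynomial κ (AlgebraicClosure ℚ)))) := IsFractionRing.injective _ _
    refine div_ne_zero ?_ ?_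
    · rw [Ne, map_eq_zero_iff _ hinj]
      exact hB hP
    · rw [Ne, map_eq_zero_iff _ hinj]
      exact hA
  obtain ⟨Δ, S, h1, h2⟩ := local_data n hn b hb g h hg0 hh0 hdeg hgg hgh (Φ * mon P ^ t) hΦ' A B hA e he1 he'
  refine Few.mono_prime ?_ (few_biUnion Δ (fun s => {c : Option κ → ℤ | ¬ ∃ p ∈ S s,
    (fun i => (c i : ZMod (p ^ 2))) ∈ Om (Φ * mon P ^ t) e p}) fun s hs =>
    few_crit (P : Set (Option κ)) (fun p => Om (Φ * mon P ^ t) e p) (S s) (h1 s hs).2 fun p hp =>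
      ⟨((h1 s hs).1 p hp).1, fun x hx i hi => om_units ((h1 s hs).1 p hp).1 P Φ e t ht1 x hx i hi,
        ((h1 s hs).1 p hp).2⟩)
  intro c hc hc0
  by_contra hcon
  apply hc
  intro m hm hmh δ hcl hloc
  refine h2 c (by
    intro s hs
    by_contra h4
    exact hcon (Set.mem_iUnion₂.2 ⟨s, hs, h4⟩)) m hm hmh δ hcl fun p _ => ?_
  rw [val_mul, val_pow, val_mon]
  refine cover_mul (prod_ne_zero_iff.2 fun i hi => hc0 i hi) ?_ (hloc p)
  exact hmh.trans (Dvd.intro _ rfl)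

/-- few primes in intervals -/
def FewP (B : Set ℤ) : Prop :=
  ∀ ε : ℝ, 0 < ε → ∃ g₀ : ℕ, ∀ u g : ℕ, g₀ ≤ g →
    (({p : ℕ | u < p ∧ p ≤ u + g ∧ p.Prime ∧ (p : ℤ) ∈ B}.ncard : ℕ) : ℝ) ≤ ε * (g / Real.log g)

lemma fewP_of_few (B : Set ℤ) (hB : Few (({none} : Finset (Option Empty)) : Set (Option Empty))
    {c : Option Empty → ℤ | c none ∈ B}) : FewP B := by
  classical
  intro ε hε
  obtain ⟨g₀, hg⟩ := hB ε hε
  refine ⟨g₀, fun u g hug => ?_⟩
  have h1 := hg (fun _ => u) (fun _ => g) (fun _ => hug)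
  have h2 : ∏ i : Option Empty, wt (({none} : Finset (Option Empty)) : Set (Option Empty)) i g =
      (g : ℝ) / Real.log g := by
    rw [Fintype.prod_option]
    unfold wt
    simp
  rw [h2] at h1
  refine le_trans ?_ h1
  have h3 : {p : ℕ | u < p ∧ p ≤ u + g ∧ p.Prime ∧ (p : ℤ) ∈ B}.ncard ≤
      (InBox (({none} : Finset (Option Empty)) : Set (Option Empty)) {c : Option Empty → ℤ | c none ∈ B}
        (fun _ => u) (fun _ => g)).ncard := by
    refine Set.ncard_le_ncard_of_injOn (fun p : ℕ => fun _ : Option Empty => p) ?_ ?_ (inBox_finite _ _ _ _)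
    · rintro p ⟨h4, h5, h6, h7⟩
      exact ⟨fun i => ⟨h4, h5⟩, fun i _ => h6, h7⟩
    · intro p _ p' _ hpp
      exact congrFun hpp none
  exact_mod_cast h3

/-- one variable -/
theorem uni_few {K : Type} [Fintype K] (n : ℕ) (hn : 0 < n) (b : ℤ) (hb : b ≠ 0)
    (g : K → ℤ[X]) (h : ℤ[X]) (hg0 : ∀ k, g k ≠ 0) (hh1 : 0 < h.natDegree) (hdeg : ∀ k, n ∣ (g k).natDegree)
    (hgg : ∀ k l, k ≠ l →
      IsCoprime ((g k).map (Int.castRingHom ℚ)) ((g l).map (Int.castRingHom ℚ)))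
    (hgh : ∀ k, IsCoprime (h.map (Int.castRingHom ℚ)) ((g k).map (Int.castRingHom ℚ)))
    (Φ : ℤ[X]) (hΦ : Φ ≠ 0) (S : Finset (AlgebraicClosure ℚ)) (hS0 : ∀ ρ ∈ S, ρ ≠ 0) (e : ℕ)
    (hS : ∀ ρ ∈ S, (Φ.map (Int.castRingHom (AlgebraicClosure ℚ))).rootMultiplicity ρ = e) :
    FewP {u : ℤ | ¬ ∀ m, ¬ m ∣ e → m ∣ h.natDegree → ∀ δ : K → ℚ, IsClass n b δ →
      (∀ (p : ℕ) [Fact p.Prime], CoveringHasPoint n m (Φ.eval u) g h δ ℚ_[p]) → ∀ ρ ∈ S, PersAt n g h ρ δ} := by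
  classical
  apply fewP_of_few
  refine Few.mono ?_ (few_biUnion S (fun ρ => {c : Option Empty → ℤ |
    ¬ ∀ m, ¬ m ∣ e → m ∣ h.natDegree → ∀ δ : K → ℚ, IsClass n b δ →
      (∀ (p : ℕ) [Fact p.Prime], CoveringHasPoint n m
        (Pool.Agent.V5helper45.PV.val (Φ.map (MvPolynomial.C : ℤ →+* MvPolynomial Empty ℤ))
          (fun i => c (some i)) (c none)) g h δ ℚ_[p]) →
        Pool.Agent.V5helper45.PV.PersistentOver n g h (1 : MvPolynomial Empty (AlgebraicClosure ℚ))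
          (MvPolynomial.C ρ) δ}) fun ρ hρ =>
    few_main n hn b hb g h hg0 hh1 hdeg hgg hgh {none} (Φ.map (MvPolynomial.C : ℤ →+* MvPolynomial Empty ℤ)) ?_
      1 (MvPolynomial.C ρ) one_ne_zero (fun _ => by
        rw [Ne, MvPolynomial.C_eq_zero]
        exact hS0 ρ hρ) e (by rw [rootMult_map, hS ρ hρ]))
  · intro c hc
    rw [Set.mem_ofPred_eq, Set.mem_ofPred_eq] at hc
    push Not at hc
    obtain ⟨m, hm, hmh, δ, hcl, hloc, ρ, hρ, hnp⟩ := hc
    refine Set.mem_iUnion₂.2 ⟨ρ, hρ, ?_⟩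
    rw [Set.mem_ofPred_eq]
    intro hcon
    apply hnp
    have h1 := hcon m hm hmh δ hcl (by
      intro p _
      rw [val_map_C]
      exact hloc p)
    intro σ hσ
    refine h1 σ (fun μ => ?_) (fun μ => ?_)
    · rw [MvPolynomial.coeff_one]
      split_ifs
      · exact map_one σ
      · exact map_zero σ
    · rw [MvPolynomial.coeff_C]
      split_ifs
      · exact hσ
      · exact map_zero σ
  · exact (Polynomial.map_ne_zero_iff (MvPolynomial.C_injective Empty ℤ)).2 hΦ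

/-- the roots of an irreducible factor -/
theorem roots_factor' (Φ f : ℤ[X]) (hΦ : Φ ≠ 0) (hf : Irreducible (f.map (Int.castRingHom ℚ)))
    (hf0 : f.eval 0 ≠ 0) (e : ℕ)
    (h1 : (f.map (Int.castRingHom ℚ)) ^ e ∣ Φ.map (Int.castRingHom ℚ))
    (h2 : ¬ (f.map (Int.castRingHom ℚ)) ^ (e + 1) ∣ Φ.map (Int.castRingHom ℚ)) :
    ∃ S : Finset (AlgebraicClosure ℚ), S.card = f.natDegree ∧
      (∀ σ : AlgebraicClosure ℚ ≃ₐ[ℚ] AlgebraicClosure ℚ, ∀ ρ ∈ S, σ ρ ∈ S) ∧ (∀ ρ ∈ S, ρ ≠ 0) ∧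
      ∀ ρ ∈ S, (Φ.map (Int.castRingHom (AlgebraicClosure ℚ))).rootMultiplicity ρ = e := by
  classical
  set P := f.map (Int.castRingHom ℚ) with hP
  let j : ℚ →+* AlgebraicClosure ℚ := Rat.castHom (AlgebraicClosure ℚ)
  have hmap : ∀ q : ℤ[X], q.map (Int.castRingHom (AlgebraicClosure ℚ)) = (q.map (Int.castRingHom ℚ)).map j := by
    intro q
    rw [Polynomial.map_map]
    congr 1
  have hsep : P.Separable := hf.separable
  have hP0 : P ≠ 0 := hf.ne_zero
  have hP1 : P.map j ≠ 0 := (Polynomial.map_ne_zero_iff j.injective).2 hP0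
  obtain ⟨G, hG⟩ := h1
  have hnd : ¬ P ∣ G := by
    rintro ⟨q, hq⟩
    apply h2
    rw [hG, hq]
    exact ⟨q, by ring⟩
  have hcop : IsCoprime P G := (hf.coprime_iff_not_dvd).2 hnd
  refine ⟨(P.map j).roots.toFinset, ?_, ?_, ?_, ?_⟩
  · have h3 : (P.map j).roots.Nodup := nodup_roots hsep.map
    rw [Multiset.toFinset_card_of_nodup h3]
    have h4 : (P.map j).Splits := IsAlgClosed.splits _
    rw [← h4.natDegree_eq_card_roots, natDegree_map_eq_of_injective j.injective, hP,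
      natDegree_map_eq_of_injective (Int.castRingHom ℚ).injective_int]
  · intro σ ρ hρ
    rw [Multiset.mem_toFinset, mem_roots hP1, IsRoot.def, hP, ← hmap, eval_map] at hρ ⊢
    have h5 := aeval_comm f σ ρ
    have hZ : algebraMap ℤ (AlgebraicClosure ℚ) = Int.castRingHom (AlgebraicClosure ℚ) := RingHom.ext_int _ _
    rw [aeval_def, aeval_def, hZ, hρ, map_zero] at h5
    exact h5.symm
  · rintro ρ hρ rfl
    rw [Multiset.mem_toFinset, mem_roots hP1, IsRoot.def, hP, ← hmap] at hρ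
    have h3 : (f.map (Int.castRingHom (AlgebraicClosure ℚ))).eval 0 = ((f.eval 0 : ℤ) : AlgebraicClosure ℚ) := by
      rw [eval_map]
      have := eval₂_at_apply (p := f) (Int.castRingHom (AlgebraicClosure ℚ)) 0
      rw [map_zero] at this
      rw [this]
      rfl
    rw [h3] at hρ
    exact hf0 (Int.cast_eq_zero.1 hρ)
  · intro ρ hρ
    rw [Multiset.mem_toFinset, mem_roots hP1] at hρ
    obtain ⟨P2, hP2⟩ := dvd_iff_isRoot.2 hρ
    have h6 : P2.eval ρ ≠ 0 := by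
      intro h7
      obtain ⟨a, c, hac⟩ := hsep
      have h8 := congrArg (fun q => (q.map j).eval ρ) hac
      simp only [Polynomial.map_add, Polynomial.map_mul, eval_add, eval_mul, Polynomial.map_one, eval_one] at h8
      have h9 : ((derivative P).map j).eval ρ = 0 := by
        rw [← derivative_map, hP2, derivative_mul, eval_add, eval_mul, eval_mul, h7]
        simp
      have h10 : (P.map j).eval ρ = 0 := hρ
      rw [h9, h10, mul_zero, mul_zero, add_zero] at h8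
      exact zero_ne_one h8
    have h7 : (G.map j).eval ρ ≠ 0 := by
      intro h7
      obtain ⟨a, c, hac⟩ := hcop
      have h8 := congrArg (fun q => (q.map j).eval ρ) hac
      simp only [Polynomial.map_add, Polynomial.map_mul, eval_add, eval_mul, Polynomial.map_one, eval_one] at h8
      have h10 : (P.map j).eval ρ = 0 := hρ
      rw [h7, h10, mul_zero, mul_zero, add_zero] at h8
      exact zero_ne_one h8
    have h8 : Φ.map (Int.castRingHom (AlgebraicClosure ℚ)) = (X - C ρ) ^ e * (P2 ^ e * G.map j) := by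
      rw [hmap, hG, Polynomial.map_mul, Polynomial.map_pow, hP2, mul_pow, mul_assoc]
    have h9 : ((X - C ρ) ^ e * (P2 ^ e * G.map j) : (AlgebraicClosure ℚ)[X]) ≠ 0 := by
      rw [← h8]
      exact (Polynomial.map_ne_zero_iff (Int.castRingHom (AlgebraicClosure ℚ)).injective_int).2 hΦ
    rw [h8, rootMultiplicity_mul h9, rootMultiplicity_X_sub_C_pow, rootMultiplicity_eq_zero, add_zero]
    rw [IsRoot.def, eval_mul, eval_pow]
    exact mul_ne_zero (pow_ne_zero _ h6) h7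

lemma FewP.mono {B B' : Set ℤ} (h : B ⊆ B') (hB : FewP B') : FewP B := by
  intro ε hε
  obtain ⟨g₀, hg⟩ := hB ε hε
  refine ⟨g₀, fun u g hug => le_trans ?_ (hg u g hug)⟩
  have h1 : {p : ℕ | u < p ∧ p ≤ u + g ∧ p.Prime ∧ (p : ℤ) ∈ B'}.Finite :=
    (Set.finite_Iic (u + g)).subset fun p hp => hp.2.1
  have h2 : {p : ℕ | u < p ∧ p ≤ u + g ∧ p.Prime ∧ (p : ℤ) ∈ B} ⊆
      {p : ℕ | u < p ∧ p ≤ u + g ∧ p.Prime ∧ (p : ℤ) ∈ B'} := fun p hp => ⟨hp.1, hp.2.1, hp.2.2.1, h hp.2.2.2⟩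
  exact_mod_cast Set.ncard_le_ncard h2 h1

/-- a factor of odd degree -/
theorem odd_few {K : Type} [Fintype K] (b : ℤ) (hb : b ≠ 0)
    (g : K → ℤ[X]) (h : ℤ[X]) (hg0 : ∀ k, g k ≠ 0) (hh1 : 0 < h.natDegree) (hdeg : ∀ k, 2 ∣ (g k).natDegree)
    (hgg : ∀ k l, k ≠ l →
      IsCoprime ((g k).map (Int.castRingHom ℚ)) ((g l).map (Int.castRingHom ℚ)))
    (hgh : ∀ k, IsCoprime (h.map (Int.castRingHom ℚ)) ((g k).map (Int.castRingHom ℚ)))
    (hT : TwoClosed h) (Φ f : ℤ[X]) (hΦ : Φ ≠ 0) (hf : Irreducible (f.map (Int.castRingHom ℚ)))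
    (hf0 : f.eval 0 ≠ 0) (hodd : Odd f.natDegree) (e : ℕ)
    (h1 : (f.map (Int.castRingHom ℚ)) ^ e ∣ Φ.map (Int.castRingHom ℚ))
    (h2 : ¬ (f.map (Int.castRingHom ℚ)) ^ (e + 1) ∣ Φ.map (Int.castRingHom ℚ)) :
    FewP {u : ℤ | ¬ ∀ m, ¬ m ∣ e → m ∣ h.natDegree → ∀ δ : K → ℚ, IsClass 2 b δ →
      (∀ (p : ℕ) [Fact p.Prime], CoveringHasPoint 2 m (Φ.eval u) g h δ ℚ_[p]) → Persistent 2 g h δ} := by
  obtain ⟨S, hS1, hS2, hS3, hS4⟩ := roots_factor' Φ f hΦ hf hf0 e h1 h2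
  refine FewP.mono ?_ (uni_few 2 two_pos b hb g h hg0 hh1 hdeg hgg hgh Φ hΦ S hS3 e hS4)
  intro u hu
  rw [Set.mem_ofPred_eq] at hu ⊢
  intro hcon
  apply hu
  intro m hm hmh δ hcl hloc
  exact odd_pers g h δ hcl.1 hT S (by rw [hS1]; exact hodd) hS2 (hcon m hm hmh δ hcl hloc)

end Pool.Agent.V5helper45.PQ
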