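import Pool.Agent.V5helper45.PQ.Siv
import Pool.Agent.V5helper45.PQ.Main

/-! Values of polynomials in one variable at primes: the number of the exceptional primes. -/

set_option autoImplicit false

namespace Pool.Agent.V5helper45.PQ

open Finset Polynomial Pool.Agent.R925.FD
open Pool.Agent.V5helper45.PV hiding val
open Pool.Agent.W401.Cheb Pool.Agent.W723.SecC Pool.Agent.N24.RW

/-- the local data -/
theorem core_data {K : Type} [Fintype K] (n : ℕ) (hn : 0 < n) (b : ℤ) (hb : b ≠ 0)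
    (g : K → ℤ[X]) (h : ℤ[X]) (hg0 : ∀ k, g k ≠ 0) (hh0 : h ≠ 0) (hdeg : ∀ k, n ∣ (g k).natDegree)
    (hgg : ∀ k l, k ≠ l →
      IsCoprime ((g k).map (Int.castRingHom ℚ)) ((g l).map (Int.castRingHom ℚ)))
    (hgh : ∀ k, IsCoprime (h.map (Int.castRingHom ℚ)) ((g k).map (Int.castRingHom ℚ)))
    {κ : Type} [Fintype κ] (Φ : (MvPolynomial κ ℤ)[X]) (hΦ : Φ ≠ 0)
    (A B : MvPolynomial κ (AlgebraicClosure ℚ)) (hA : A ≠ 0) (e : ℕ) (he1 : 0 < e)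
    (he : (Φ.map (toF κ)).rootMultiplicity
      (algebraMap _ (FractionRing (MvPolynomial κ (AlgebraicClosure ℚ))) B /
        algebraMap _ (FractionRing (MvPolynomial κ (AlgebraicClosure ℚ))) A) = e) :
    ∃ (r : MvPolynomial κ ℤ) (f G : (MvPolynomial κ ℤ)[X]), C r * Φ = f ^ e * G ∧
    ∃ (Δ : Finset (K → ℤ)) (P : (K → ℤ) → Set ℕ),
      (∀ s ∈ Δ, (∀ p ∈ P s, p.Prime ∧ Pts f (C r * (derivative f * G)) p) ∧ Dense (P s)) ∧
      ∀ c : Option κ → ℤ, (∀ s ∈ Δ, ∃ p ∈ P s, (p : ℤ) ^ e ∣ PV.val Φ (fun i => c (some i)) (c none) ∧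
        ¬ (p : ℤ) ^ (e + 1) ∣ PV.val Φ (fun i => c (some i)) (c none)) → ∀ m, ¬ m ∣ e →
        m ∣ h.natDegree → ∀ δ : K → ℚ, IsClass n b δ →
        (∀ (p : ℕ) [Fact p.Prime], CoveringHasPoint n m (PV.val Φ (fun i => c (some i)) (c none)) g h δ ℚ_[p]) →
          Pool.Agent.V5helper45.PV.PersistentOver n g h A B δ := by
  classical
  obtain ⟨r, f, G, hr, hrel, hf, hfd, hG⟩ := alg_data (toF κ) (toF_inj κ) Φ hΦ _ e he1 he
  have hE : eval₂ (toF κ) (algebraMap _ (FractionRing (MvPolynomial κ (AlgebraicClosure ℚ))) B /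
        algebraMap _ (FractionRing (MvPolynomial κ (AlgebraicClosure ℚ))) A) (C r * (derivative f * G)) ≠ 0 := by
    rw [eval₂_mul, eval₂_mul, eval₂_C]
    refine mul_ne_zero ?_ (mul_ne_zero hfd hG)
    rw [map_ne_zero_iff _ (toF_inj κ)]
    exact hr
  -- integral coefficients
  have halg : Algebra.IsAlgebraic ℤ (AlgebraicClosure ℚ) := by
    have hq : Algebra.IsAlgebraic ℚ (AlgebraicClosure ℚ) := by
      have hEq : (DivisionRing.toRatAlgebra : Algebra ℚ (AlgebraicClosure ℚ)) = AlgebraicClosure.instAlgebra ℚ :=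
        Subsingleton.elim _ _
      rw [hEq]
      exact AlgebraicClosure.isAlgebraic ℚ
    exact (IsFractionRing.comap_isAlgebraic_iff (A := ℤ) (K := ℚ) (C := AlgebraicClosure ℚ)).2 hq
  obtain ⟨D, hD0, hDi⟩ := Algebra.IsAlgebraic.exists_integral_multiples ℤ
    ((A.support.image fun μ => A.coeff μ) ∪ (B.support.image fun μ => B.coeff μ))
  have hDQ : ((D : ℤ) : AlgebraicClosure ℚ) ≠ 0 := Int.cast_ne_zero.2 hD0
  have hint : ∀ P : MvPolynomial κ (AlgebraicClosure ℚ), (P = A ∨ P = B) → ∀ μ,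
      IsIntegral ℤ ((MvPolynomial.C ((D : ℤ) : AlgebraicClosure ℚ) * P).coeff μ) := by
    intro P hP μ
    rw [MvPolynomial.coeff_C_mul]
    by_cases hμ : P.coeff μ = 0
    · rw [hμ, mul_zero]
      exact isIntegral_zero
    · have h1 : P.coeff μ ∈ (A.support.image fun μ => A.coeff μ) ∪ (B.support.image fun μ => B.coeff μ) := by
        rw [mem_union, mem_image, mem_image]
        rcases hP with rfl | rfl
        · exact Or.inl ⟨μ, MvPolynomial.mem_support_iff.2 hμ, rfl⟩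
        · exact Or.inr ⟨μ, MvPolynomial.mem_support_iff.2 hμ, rfl⟩
      have h2 := hDi _ h1
      rw [zsmul_eq_mul] at h2
      exact h2
  have hA1 : MvPolynomial.C ((D : ℤ) : AlgebraicClosure ℚ) * A ≠ 0 :=
    mul_ne_zero (by rwa [Ne, MvPolynomial.C_eq_zero]) hA
  have hratio : algebraMap _ (FractionRing (MvPolynomial κ (AlgebraicClosure ℚ)))
        (MvPolynomial.C ((D : ℤ) : AlgebraicClosure ℚ) * B) /
      algebraMap _ (FractionRing (MvPolynomial κ (AlgebraicClosure ℚ)))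
        (MvPolynomial.C ((D : ℤ) : AlgebraicClosure ℚ) * A) =
      algebraMap _ (FractionRing (MvPolynomial κ (AlgebraicClosure ℚ))) B /
        algebraMap _ (FractionRing (MvPolynomial κ (AlgebraicClosure ℚ))) A := by
    rw [map_mul, map_mul, mul_div_mul_left]
    rw [map_ne_zero_iff _ (IsFractionRing.injective _ _)]
    rwa [Ne, MvPolynomial.C_eq_zero]
  rw [← hratio] at hf hE
  obtain ⟨Δ, P, h1, h2⟩ := local_core n hn b hb g h hg0 hh0 hdeg hgg hgh Φ f G r e hrel _ _ hA1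
    (hint A (Or.inl rfl)) (hint B (Or.inr rfl)) hf hE
  refine ⟨r, f, G, hrel, Δ, P, h1, fun c hc m hm hmh δ hcl hloc => ?_⟩
  have h3 := h2 c hc m hm hmh δ hcl hloc
  intro σ hσA hσB
  refine h3 σ (fun μ => ?_) (fun μ => ?_)
  · rw [MvPolynomial.coeff_C_mul, map_mul, map_intCast, hσA]
  · rw [MvPolynomial.coeff_C_mul, map_mul, map_intCast, hσB]


/-- the exceptional classes modulo `p` and `p ^ 2` -/
theorem pts_uni (Φ f G : (MvPolynomial Empty ℤ)[X]) (r : MvPolynomial Empty ℤ) (e : ℕ) (hrel : C r * Φ = f ^ e * G)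
    {p : ℕ} (hp : p.Prime) (h : Pts f (C r * (derivative f * G)) p) (v : Empty → ℤ) :
    ∃ a t : ℤ, ∀ n : ℤ, (p : ℤ) ∣ n - a → ¬ (p : ℤ) ^ 2 ∣ n - t →
      (p : ℤ) ^ e ∣ PV.val Φ v n ∧ ¬ (p : ℤ) ^ (e + 1) ∣ PV.val Φ v n := by
  classical
  have : Fact p.Prime := ⟨hp⟩
  have : NeZero p := ⟨hp.ne_zero⟩
  have hpp : Prime (p : ℤ) := Nat.prime_iff_prime_int.1 hp
  obtain ⟨Np, hNp, hpt⟩ := h
  obtain ⟨u, hu0, hu1⟩ := hpt (fun i => (v i : ZMod p)) (by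
    intro h0
    apply hNp
    have h1 := MvPolynomial.eq_C_of_isEmpty Np
    rw [h1, MvPolynomial.eval_C] at h0
    rw [h1, h0, map_zero])
  have hun : ∀ n : ℤ, (p : ℤ) ∣ n - (u.val : ℤ) → (n : ZMod p) = u := by
    intro n hn
    have h1 := (ZMod.intCast_zmod_eq_zero_iff_dvd _ p).2 hn
    push_cast at h1
    rw [ZMod.natCast_zmod_val, sub_eq_zero] at h1
    exact h1
  have hcast : ∀ (P : (MvPolynomial Empty ℤ)[X]) (n : ℤ), (p : ℤ) ∣ n - (u.val : ℤ) →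
      ((PV.val P v n : ℤ) : ZMod p) = PV.val P (fun i => (v i : ZMod p)) u := by
    intro P n hn
    rw [val_cast, hun n hn]
  have hdvd : ∀ z : ℤ, (z : ZMod p) = 0 ↔ (p : ℤ) ∣ z := fun z => ZMod.intCast_zmod_eq_zero_iff_dvd z p
  have hf0 : ∀ n : ℤ, (p : ℤ) ∣ n - (u.val : ℤ) → (p : ℤ) ∣ PV.val f v n := by
    intro n hn
    rw [← hdvd, hcast f n hn, hu0]
  have hE : ∀ n : ℤ, (p : ℤ) ∣ n - (u.val : ℤ) → ¬ (p : ℤ) ∣
      MvPolynomial.eval₂Hom (Int.castRingHom ℤ) v r * (PV.val (derivative f) v n * PV.val G v n) := by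
    intro n hn h1
    apply hu1
    rw [← hcast _ n hn, val_C_mul, val_mul, hdvd]
    exact h1
  obtain ⟨t, ht⟩ : ∃ t : ℤ, ∀ n : ℤ, (p : ℤ) ∣ n - (u.val : ℤ) → (p : ℤ) ^ 2 ∣ PV.val f v n →
      (p : ℤ) ^ 2 ∣ n - t := by
    by_cases hex : ∃ n₀ : ℤ, (p : ℤ) ∣ n₀ - (u.val : ℤ) ∧ (p : ℤ) ^ 2 ∣ PV.val f v n₀
    · obtain ⟨n₀, h1, h2⟩ := hex
      refine ⟨n₀, fun n h3 h4 => ?_⟩
      rw [val_eval] at h2 h4
      set q := f.map (MvPolynomial.eval₂Hom (Int.castRingHom ℤ) v) with hq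
      obtain ⟨k, hk⟩ := Polynomial.binomExpansion q n₀ (n - n₀)
      have h5 : (p : ℤ) ∣ n - n₀ := by
        have := dvd_sub h3 h1
        rwa [sub_sub_sub_cancel_right] at this
      have h6 : (p : ℤ) ^ 2 ∣ k * (n - n₀) ^ 2 := (pow_dvd_pow_of_dvd h5 2).mul_left k
      rw [add_sub_cancel] at hk
      have h7 : (p : ℤ) ^ 2 ∣ q.derivative.eval n₀ * (n - n₀) := by
        have h8 : q.derivative.eval n₀ * (n - n₀) = q.eval n - q.eval n₀ - k * (n - n₀) ^ 2 := by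
          rw [hk]
          ring
        rw [h8]
        exact dvd_sub (dvd_sub h4 h2) h6
      have h8 : ¬ (p : ℤ) ∣ q.derivative.eval n₀ := by
        intro h9
        apply hE n₀ h1
        rw [val_derivative]
        exact (h9.mul_right _).mul_left _
      have h9 : IsCoprime ((p : ℤ) ^ 2) (q.derivative.eval n₀) :=
        IsCoprime.pow_left ((Prime.coprime_iff_not_dvd hpp).2 h8)
      exact h9.dvd_of_dvd_mul_left h7
    · exact ⟨u.val, fun n h3 h4 => absurd ⟨n, h3, h4⟩ hex⟩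
  refine ⟨u.val, t, fun n h1 h2 => ?_⟩
  have h3 : ¬ (p : ℤ) ^ 2 ∣ PV.val f v n := fun h4 => h2 (ht n h1 h4)
  obtain ⟨k, hk⟩ := hf0 n h1
  have hpk : ¬ (p : ℤ) ∣ k := by
    intro h4
    apply h3
    rw [hk, pow_two]
    exact mul_dvd_mul_left _ h4
  have h4 : PV.val (C r * Φ) v n = PV.val (f ^ e * G) v n := by rw [hrel]
  rw [val_C_mul, val_mul, val_pow, hk, mul_pow] at h4
  set r0 := MvPolynomial.eval₂Hom (Int.castRingHom ℤ) v r with hr0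
  have hr1 : ¬ (p : ℤ) ∣ r0 := fun h5 => hE n h1 (h5.mul_right _)
  have hG1 : ¬ (p : ℤ) ∣ PV.val G v n := fun h5 => hE n h1 ((h5.mul_left _).mul_left _)
  have hp0 : (p : ℤ) ≠ 0 := hpp.ne_zero
  constructor
  · have h5 : (p : ℤ) ^ e ∣ r0 * PV.val Φ v n := by
      rw [h4, mul_assoc]
      exact dvd_mul_right _ _
    exact (IsCoprime.pow_left ((Prime.coprime_iff_not_dvd hpp).2 hr1)).dvd_of_dvd_mul_left h5
  · intro h5
    have h6 : (p : ℤ) ^ e * (p : ℤ) ∣ (p : ℤ) ^ e * (k ^ e * PV.val G v n) := by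
      rw [← mul_assoc, ← h4, ← pow_succ]
      exact h5.mul_left _
    have h7 := Int.dvd_of_mul_dvd_mul_left (pow_ne_zero e hp0) h6
    rcases hpp.dvd_or_dvd h7 with h8 | h8
    · exact hpk (hpp.dvd_of_dvd_pow h8)
    · exact hG1 h8

/-- few primes in intervals, with a power of the logarithm -/
def RateP (B : Set ℤ) : Prop := ∃ θ C : ℝ, 0 < θ ∧ 0 ≤ C ∧ ∃ g₁ : ℕ, 3 ≤ g₁ ∧ ∀ x g : ℕ, g₁ ≤ g →
  (({q : ℕ | x < q ∧ q ≤ x + g ∧ q.Prime ∧ (q : ℤ) ∈ B}.ncard : ℕ) : ℝ) ≤ C * (g / Real.log g ^ (1 + θ))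

lemma rate_fin (x g : ℕ) (B : Set ℤ) : {q : ℕ | x < q ∧ q ≤ x + g ∧ q.Prime ∧ (q : ℤ) ∈ B}.Finite :=
  (Set.finite_Iic (x + g)).subset fun _ hq => hq.2.1

lemma RateP.mono' {B B' : Set ℤ} (h : ∀ q ∈ B, q ≠ 0 → q ∈ B') (hB : RateP B') : RateP B := by
  obtain ⟨θ, C, h1, h2, g₁, h3, h4⟩ := hB
  refine ⟨θ, C, h1, h2, g₁, h3, fun x g hg => le_trans ?_ (h4 x g hg)⟩
  have h5 : {q : ℕ | x < q ∧ q ≤ x + g ∧ q.Prime ∧ (q : ℤ) ∈ B} ⊆
      {q : ℕ | x < q ∧ q ≤ x + g ∧ q.Prime ∧ (q : ℤ) ∈ B'} := fun q hq => ⟨hq.1, hq.2.1, hq.2.2.1,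
    h _ hq.2.2.2 (by exact_mod_cast hq.2.2.1.ne_zero)⟩
  exact_mod_cast Set.ncard_le_ncard h5 (rate_fin x g B')

lemma rate_pow {g : ℕ} (hg : 3 ≤ g) {θ θ' : ℝ} (h : θ ≤ θ') :
    (g : ℝ) / Real.log g ^ (1 + θ') ≤ g / Real.log g ^ (1 + θ) := by
  have hg' : (3 : ℝ) ≤ g := by exact_mod_cast hg
  have hl : 1 ≤ Real.log g := by
    rw [Real.le_log_iff_exp_le (by linarith)]
    have := Real.exp_one_lt_d9
    linarith
  refine div_le_div_of_nonneg_left (by linarith) (Real.rpow_pos_of_pos (by linarith) _) ?_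
  exact Real.rpow_le_rpow_of_exponent_le hl (by linarith)

lemma RateP.union {B B' : Set ℤ} (hB : RateP B) (hB' : RateP B') : RateP (B ∪ B') := by
  obtain ⟨θ, C, h1, h2, g₁, h3, h4⟩ := hB
  obtain ⟨θ', C', h1', h2', g₁', h3', h4'⟩ := hB'
  refine ⟨min θ θ', C + C', lt_min h1 h1', by positivity, max g₁ g₁', h3.trans (le_max_left _ _), fun x g hg => ?_⟩
  have hg1 := (le_max_left _ _).trans hg
  have hg2 := (le_max_right _ _).trans hg
  have h5 := h4 x g hg1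
  have h6 := h4' x g hg2
  have h7 := rate_pow (h3.trans hg1) (min_le_left θ θ')
  have h8 := rate_pow (h3.trans hg1) (min_le_right θ θ')
  have h9 : {q : ℕ | x < q ∧ q ≤ x + g ∧ q.Prime ∧ (q : ℤ) ∈ B ∪ B'} ⊆
      {q : ℕ | x < q ∧ q ≤ x + g ∧ q.Prime ∧ (q : ℤ) ∈ B} ∪
      {q : ℕ | x < q ∧ q ≤ x + g ∧ q.Prime ∧ (q : ℤ) ∈ B'} := by
    rintro q ⟨h10, h11, h12, h13⟩
    rcases h13 with h13 | h13
    · exact Or.inl ⟨h10, h11, h12, h13⟩
    · exact Or.inr ⟨h10, h11, h12, h13⟩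
  have h10 := (Set.ncard_le_ncard h9 ((rate_fin x g B).union (rate_fin x g B'))).trans (Set.ncard_union_le _ _)
  have h11 : (({q : ℕ | x < q ∧ q ≤ x + g ∧ q.Prime ∧ (q : ℤ) ∈ B ∪ B'}.ncard : ℕ) : ℝ) ≤
      ({q : ℕ | x < q ∧ q ≤ x + g ∧ q.Prime ∧ (q : ℤ) ∈ B}.ncard : ℕ) +
      ({q : ℕ | x < q ∧ q ≤ x + g ∧ q.Prime ∧ (q : ℤ) ∈ B'}.ncard : ℕ) := by exact_mod_cast h10
  have h12 := mul_le_mul_of_nonneg_left h7 h2
  have h13 := mul_le_mul_of_nonneg_left h8 h2'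
  rw [add_mul]
  linarith

lemma rate_empty : RateP ∅ := by
  refine ⟨1, 0, one_pos, le_refl _, 3, le_refl _, fun x g _ => ?_⟩
  have h1 : {q : ℕ | x < q ∧ q ≤ x + g ∧ q.Prime ∧ (q : ℤ) ∈ (∅ : Set ℤ)} = ∅ := by
    rw [Set.eq_empty_iff_forall_notMem]
    rintro q ⟨-, -, -, h⟩
    exact h
  rw [h1, Set.ncard_empty, Nat.cast_zero, zero_mul]

lemma rate_biUnion {α : Type} (Δ : Finset α) (B : α → Set ℤ) (h : ∀ s ∈ Δ, RateP (B s)) :
    RateP (⋃ s ∈ Δ, B s) := by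
  classical
  induction Δ using Finset.induction_on with
  | empty => simpa using rate_empty
  | insert a Δ ha ih =>
    rw [Finset.set_biUnion_insert]
    exact (h a (mem_insert_self _ _)).union (ih fun s hs => h s (mem_insert_of_mem hs))

/-- one variable, one root -/
theorem uni_rate_one {K : Type} [Fintype K] (n : ℕ) (hn : 0 < n) (b : ℤ) (hb : b ≠ 0)
    (g : K → ℤ[X]) (h : ℤ[X]) (hg0 : ∀ k, g k ≠ 0) (hh1 : 0 < h.natDegree) (hdeg : ∀ k, n ∣ (g k).natDegree)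
    (hgg : ∀ k l, k ≠ l →
      IsCoprime ((g k).map (Int.castRingHom ℚ)) ((g l).map (Int.castRingHom ℚ)))
    (hgh : ∀ k, IsCoprime (h.map (Int.castRingHom ℚ)) ((g k).map (Int.castRingHom ℚ)))
    (Φ : ℤ[X]) (hΦ : Φ ≠ 0) (ρ : AlgebraicClosure ℚ) (hρ : ρ ≠ 0) (e : ℕ)
    (he : (Φ.map (Int.castRingHom (AlgebraicClosure ℚ))).rootMultiplicity ρ = e) :
    RateP {u : ℤ | ¬ ∀ m, ¬ m ∣ e → m ∣ h.natDegree → ∀ δ : K → ℚ, IsClass n b δ →
      (∀ (p : ℕ) [Fact p.Prime], CoveringHasPoint n m (Φ.eval u) g h δ ℚ_[p]) → PersAt n g h ρ δ} := by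
  classical
  have hh0 : h ≠ 0 := by
    rintro rfl
    rw [natDegree_zero] at hh1
    exact lt_irrefl _ hh1
  rcases Nat.eq_zero_or_pos e with he0 | he1
  · refine RateP.mono' ?_ rate_empty
    intro c hc _
    exfalso
    apply hc
    intro m hm
    rw [he0] at hm
    exact absurd (dvd_zero m) hm
  set P : Finset (Option Empty) := {none} with hP
  set Ψ : (MvPolynomial Empty ℤ)[X] := Φ.map (MvPolynomial.C : ℤ →+* MvPolynomial Empty ℤ) with hΨ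
  have hΨ0 : Ψ ≠ 0 := (Polynomial.map_ne_zero_iff (MvPolynomial.C_injective Empty ℤ)).2 hΦ
  set t : ℕ := h.natDegree * (e + 1) with ht
  have ht1 : e + 1 ≤ t := by
    rw [ht]
    exact Nat.le_mul_of_pos_left _ hh1
  have hΦ' : Ψ * mon P ^ t ≠ 0 := mul_ne_zero hΨ0 (pow_ne_zero _ (mon_ne P))
  have he' : ((Ψ * mon P ^ t).map (toF Empty)).rootMultiplicity
      (algebraMap (MvPolynomial Empty (AlgebraicClosure ℚ)) (FractionRing (MvPolynomial Empty (AlgebraicClosure ℚ)))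
        (MvPolynomial.C ρ) /
        algebraMap (MvPolynomial Empty (AlgebraicClosure ℚ)) (FractionRing (MvPolynomial Empty (AlgebraicClosure ℚ)))
          1) = e := by
    rw [rootMult_mon P Ψ hΨ0 t _ ?_, hΨ, rootMult_map, he]
    intro _
    have hinj : Function.Injective (algebraMap (MvPolynomial Empty (AlgebraicClosure ℚ))
      (FractionRing (MvPolynomial Empty (AlgebraicClosure ℚ)))) := IsFractionRing.injective _ _
    refine div_ne_zero ?_ ?_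
    · rw [Ne, map_eq_zero_iff _ hinj, MvPolynomial.C_eq_zero]
      exact hρ
    · rw [map_one]
      exact one_ne_zero
  obtain ⟨r, f, G, hrel, Δ, S, h1, h2⟩ := core_data n hn b hb g h hg0 hh0 hdeg hgg hgh (Ψ * mon P ^ t) hΦ'
    1 (MvPolynomial.C ρ) one_ne_zero e he1 he'
  have hval : ∀ u : ℤ, PV.val (Ψ * mon P ^ t) (fun _ : Empty => u) u = Φ.eval u * u ^ t := by
    intro u
    have h3 := val_mon P (fun _ => u)
    simp only [hP, prod_singleton] at h3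
    rw [val_mul, val_pow, hΨ, val_map_C, hP, h3]
  have hex : ∀ s ∈ Δ, ∀ p ∈ S s, ∃ at' : ℤ × ℤ, ∀ u : ℤ, (p : ℤ) ∣ u - at'.1 → ¬ (p : ℤ) ^ 2 ∣ u - at'.2 →
      (p : ℤ) ^ e ∣ PV.val (Ψ * mon P ^ t) (fun _ : Empty => u) u ∧
        ¬ (p : ℤ) ^ (e + 1) ∣ PV.val (Ψ * mon P ^ t) (fun _ : Empty => u) u := by
    intro s hs p hp
    obtain ⟨a, t', hat⟩ := pts_uni (Ψ * mon P ^ t) f G r e hrel ((h1 s hs).1 p hp).1 ((h1 s hs).1 p hp).2
      (fun i => i.elim)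
    refine ⟨(a, t'), fun u h3 h4 => ?_⟩
    have h5 : (fun _ : Empty => u) = (fun i : Empty => i.elim) := by
      funext i
      exact i.elim
    rw [h5]
    exact hat u h3 h4
  choose! at' hat using hex
  have hnd : ∀ s ∈ Δ, ∀ p ∈ S s, p.Prime ∧ ¬ (p : ℤ) ∣ (at' s p).1 := by
    intro s hs p hp
    have hpp := ((h1 s hs).1 p hp).1
    refine ⟨hpp, fun h3 => ?_⟩
    have hpp' : Prime (p : ℤ) := Nat.prime_iff_prime_int.1 hpp
    -- a number in the class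
    obtain ⟨u, hu1, hu2⟩ : ∃ u : ℤ, (p : ℤ) ∣ u - (at' s p).1 ∧ ¬ (p : ℤ) ^ 2 ∣ u - (at' s p).2 := by
      by_cases h4 : (p : ℤ) ^ 2 ∣ (at' s p).1 - (at' s p).2
      · refine ⟨(at' s p).1 + p, by simp, fun h5 => ?_⟩
        have h6 := dvd_sub h5 h4
        have h7 : (at' s p).1 + (p : ℤ) - (at' s p).2 - ((at' s p).1 - (at' s p).2) = p * 1 := by ring
        rw [h7, pow_two] at h6
        exact hpp'.not_dvd_one (Int.dvd_of_mul_dvd_mul_left hpp'.ne_zero h6)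
      · exact ⟨(at' s p).1, by simp, h4⟩
    have h4 := (hat s hs p hp u hu1 hu2).2
    apply h4
    rw [hval]
    have h5 : (p : ℤ) ∣ u := by
      have := dvd_add hu1 h3
      rwa [sub_add_cancel] at this
    exact ((pow_dvd_pow _ ht1).trans (pow_dvd_pow_of_dvd h5 t)).mul_left _
  refine RateP.mono' ?_ (rate_biUnion Δ (fun s => {u : ℤ | ∀ p ∈ S s, ¬ (p : ℤ) ∣ u - (at' s p).1 ∨
    (p : ℤ) ^ 2 ∣ u - (at' s p).2}) fun s hs =>
    sieve (S s) (h1 s hs).2 (fun p => (at' s p).1) (fun p => (at' s p).2) (hnd s hs))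
  intro u hu hu0
  by_contra hcon
  apply hu
  intro m hm hmh δ hcl hloc
  have h3 := h2 (fun _ => u) (by
    intro s hs
    by_contra h4
    apply hcon
    refine Set.mem_iUnion₂.2 ⟨s, hs, fun p hp => ?_⟩
    by_contra h5
    push Not at h5
    exact h4 ⟨p, hp, hat s hs p hp u h5.1 h5.2⟩) m hm hmh δ hcl fun p _ => by
      rw [hval]
      exact cover_mul hu0 (hmh.trans (Dvd.intro _ rfl)) (hloc p)
  intro σ hσ
  refine h3 σ (fun μ => ?_) (fun μ => ?_)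
  · rw [MvPolynomial.coeff_one]
    split_ifs
    · exact map_one σ
    · exact map_zero σ
  · rw [MvPolynomial.coeff_C]
    split_ifs
    · exact hσ
    · exact map_zero σ

/-- one variable -/
theorem uni_rate {K : Type} [Fintype K] (n : ℕ) (hn : 0 < n) (b : ℤ) (hb : b ≠ 0)
    (g : K → ℤ[X]) (h : ℤ[X]) (hg0 : ∀ k, g k ≠ 0) (hh1 : 0 < h.natDegree) (hdeg : ∀ k, n ∣ (g k).natDegree)
    (hgg : ∀ k l, k ≠ l →
      IsCoprime ((g k).map (Int.castRingHom ℚ)) ((g l).map (Int.castRingHom ℚ)))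
    (hgh : ∀ k, IsCoprime (h.map (Int.castRingHom ℚ)) ((g k).map (Int.castRingHom ℚ)))
    (Φ : ℤ[X]) (hΦ : Φ ≠ 0) (S : Finset (AlgebraicClosure ℚ)) (hS0 : ∀ ρ ∈ S, ρ ≠ 0) (e : ℕ)
    (hS : ∀ ρ ∈ S, (Φ.map (Int.castRingHom (AlgebraicClosure ℚ))).rootMultiplicity ρ = e) :
    RateP {u : ℤ | ¬ ∀ m, ¬ m ∣ e → m ∣ h.natDegree → ∀ δ : K → ℚ, IsClass n b δ →
      (∀ (p : ℕ) [Fact p.Prime], CoveringHasPoint n m (Φ.eval u) g h δ ℚ_[p]) → ∀ ρ ∈ S, PersAt n g h ρ δ} := by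
  classical
  refine RateP.mono' ?_ (rate_biUnion S (fun ρ => {u : ℤ |
    ¬ ∀ m, ¬ m ∣ e → m ∣ h.natDegree → ∀ δ : K → ℚ, IsClass n b δ →
      (∀ (p : ℕ) [Fact p.Prime], CoveringHasPoint n m (Φ.eval u) g h δ ℚ_[p]) → PersAt n g h ρ δ}) fun ρ hρ =>
    uni_rate_one n hn b hb g h hg0 hh1 hdeg hgg hgh Φ hΦ ρ (hS0 ρ hρ) e (hS ρ hρ))
  intro c hc _
  rw [Set.mem_ofPred_eq] at hc
  push Not at hc
  obtain ⟨m, hm, hmh, δ, hcl, hloc, ρ, hρ, hnp⟩ := hc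
  refine Set.mem_iUnion₂.2 ⟨ρ, hρ, ?_⟩
  rw [Set.mem_ofPred_eq]
  intro hcon
  exact hnp (hcon m hm hmh δ hcl fun p _ => hloc p)

/-- a factor of odd degree -/
theorem odd_rate {K : Type} [Fintype K] (b : ℤ) (hb : b ≠ 0)
    (g : K → ℤ[X]) (h : ℤ[X]) (hg0 : ∀ k, g k ≠ 0) (hh1 : 0 < h.natDegree) (hdeg : ∀ k, 2 ∣ (g k).natDegree)
    (hgg : ∀ k l, k ≠ l →
      IsCoprime ((g k).map (Int.castRingHom ℚ)) ((g l).map (Int.castRingHom ℚ)))
    (hgh : ∀ k, IsCoprime (h.map (Int.castRingHom ℚ)) ((g k).map (Int.castRingHom ℚ)))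
    (hT : TwoClosed h) (Φ f : ℤ[X]) (hΦ : Φ ≠ 0) (hf : Irreducible (f.map (Int.castRingHom ℚ)))
    (hf0 : f.eval 0 ≠ 0) (hodd : Odd f.natDegree) (e : ℕ)
    (h1 : (f.map (Int.castRingHom ℚ)) ^ e ∣ Φ.map (Int.castRingHom ℚ))
    (h2 : ¬ (f.map (Int.castRingHom ℚ)) ^ (e + 1) ∣ Φ.map (Int.castRingHom ℚ)) :
    RateP {u : ℤ | ¬ ∀ m, ¬ m ∣ e → m ∣ h.natDegree → ∀ δ : K → ℚ, IsClass 2 b δ →
      (∀ (p : ℕ) [Fact p.Prime], CoveringHasPoint 2 m (Φ.eval u) g h δ ℚ_[p]) → Persistent 2 g h δ} := by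
  obtain ⟨S, hS1, hS2, hS3, hS4⟩ := roots_factor' Φ f hΦ hf hf0 e h1 h2
  refine RateP.mono' ?_ (uni_rate 2 two_pos b hb g h hg0 hh1 hdeg hgg hgh Φ hΦ S hS3 e hS4)
  intro u hu _
  rw [Set.mem_ofPred_eq] at hu ⊢
  intro hcon
  apply hu
  intro m hm hmh δ hcl hloc
  exact odd_pers g h δ hcl.1 hT S (by rw [hS1]; exact hodd) hS2 (hcon m hm hmh δ hcl hloc)

/-- all intervals -/
theorem rate_all {B : Set ℤ} (h : RateP B) : ∃ θ C : ℝ, 0 < θ ∧ ∀ x g : ℕ, 2 ≤ g →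
    (({q : ℕ | x < q ∧ q ≤ x + g ∧ q.Prime ∧ (q : ℤ) ∈ B}.ncard : ℕ) : ℝ) ≤ C * (g / Real.log g ^ (1 + θ)) := by
  obtain ⟨θ, C, h1, h2, g₁, h3, h4⟩ := h
  refine ⟨θ, C + Real.log g₁ ^ (1 + θ), h1, fun x g hg => ?_⟩
  have hg' : (2 : ℝ) ≤ g := by exact_mod_cast hg
  have hl : 0 < Real.log g := Real.log_pos (by linarith)
  have hLp : 0 < Real.log g ^ (1 + θ) := Real.rpow_pos_of_pos hl _
  have hL1 : 0 ≤ Real.log g₁ := Real.log_natCast_nonneg g₁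
  have h5 : 0 ≤ Real.log g₁ ^ (1 + θ) := Real.rpow_nonneg hL1 _
  have h6 : 0 ≤ (g : ℝ) / Real.log g ^ (1 + θ) := by positivity
  rw [add_mul]
  rcases le_or_gt g₁ g with hgg | hgg
  · have h7 := h4 x g hgg
    have h8 := mul_nonneg h5 h6
    linarith
  · have h7 : {q : ℕ | x < q ∧ q ≤ x + g ∧ q.Prime ∧ (q : ℤ) ∈ B} ⊆ ((Ioc x (x + g) : Finset ℕ) : Set ℕ) := by
      intro q hq
      rw [mem_coe, mem_Ioc]
      exact ⟨hq.1, hq.2.1⟩
    have h8 := Set.ncard_le_ncard h7 (Finset.finite_toSet _)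
    rw [Set.ncard_coe_finset, Nat.card_Ioc, Nat.add_sub_cancel_left] at h8
    have h9 : (({q : ℕ | x < q ∧ q ≤ x + g ∧ q.Prime ∧ (q : ℤ) ∈ B}.ncard : ℕ) : ℝ) ≤ g := by exact_mod_cast h8
    have h10 : Real.log g ^ (1 + θ) ≤ Real.log g₁ ^ (1 + θ) :=
      Real.rpow_le_rpow hl.le (Real.log_le_log (by linarith) (by exact_mod_cast hgg.le)) (by linarith)
    have h11 : (g : ℝ) ≤ Real.log g₁ ^ (1 + θ) * (g / Real.log g ^ (1 + θ)) := by
      rw [mul_div_assoc', le_div_iff₀ hLp, mul_comm (g : ℝ)]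
      exact mul_le_mul_of_nonneg_right h10 (by linarith)
    have h12 := mul_nonneg h2 h6
    linarith

end Pool.Agent.V5helper45.PQ
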