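import Pool.Agent.V5helper45.PQ.Ana

/-! Primes in intervals which avoid classes modulo the members of a set of primes of positive density. -/

set_option autoImplicit false

namespace Pool.Agent.V5helper45.PQ

open Finset Filter

/-- the sieving level -/
lemma level (k g : ℕ) (hk : 1 ≤ k) (hg : 2 ^ k ≤ g) :
    ∃ J : ℕ, (2 ^ 2 ^ J) ^ k ≤ g ∧ g < ((2 ^ 2 ^ J) ^ k) ^ 2 := by
  classical
  have hex : ∃ j : ℕ, g < (2 ^ 2 ^ j) ^ k := by
    refine ⟨g, ?_⟩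
    have h1 : g < 2 ^ g := Nat.lt_two_pow_self
    have h2 : 2 ^ g < 2 ^ 2 ^ g := Nat.lt_two_pow_self
    calc g < 2 ^ 2 ^ g := h1.trans h2
      _ = (2 ^ 2 ^ g) ^ 1 := (pow_one _).symm
      _ ≤ (2 ^ 2 ^ g) ^ k := Nat.pow_le_pow_right (by positivity) hk
  have h1 := Nat.find_spec hex
  have h2 := fun m (hm : m < Nat.find hex) => Nat.find_min hex hm
  have h0 : Nat.find hex ≠ 0 := by
    intro h
    rw [h] at h1
    simp only [pow_zero, pow_one] at h1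
    omega
  obtain ⟨J, hJ⟩ := Nat.exists_eq_succ_of_ne_zero h0
  refine ⟨J, ?_, ?_⟩
  · exact not_lt.1 (h2 J (by omega))
  · rw [hJ] at h1
    refine h1.trans_le (le_of_eq ?_)
    rw [Nat.succ_eq_add_one, ← pow_mul, ← pow_mul, ← pow_mul]
    congr 1
    rw [pow_succ]
    ring

/-- the squares -/
lemma squares (w y x g : ℕ) (hw : 1 ≤ w) (t : ℕ → ℤ) (s : Finset ℕ)
    (hs : ∀ n ∈ s, n ∈ Ioc x (x + g) ∧ ∃ p ∈ PP w y, ((p : ℤ) ^ 2 ∣ (n : ℤ) - t p)) :
    (s.card : ℝ) ≤ g / w + y := by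
  classical
  have hP : ∀ p ∈ PP w y, p.Prime ∧ w < p ∧ p ≤ y := by
    intro p hp
    unfold PP at hp
    rw [mem_filter, mem_Ioc] at hp
    exact ⟨hp.2, hp.1.1, hp.1.2⟩
  have h1 : s ⊆ (PP w y).biUnion fun p => (Ioc x (x + g)).filter fun n => n ≡ (t p % ((p ^ 2 : ℕ) : ℤ)).toNat [MOD p ^ 2] := by
    intro n hn
    obtain ⟨h1, p, hp, h2⟩ := hs n hn
    rw [mem_biUnion]
    refine ⟨p, hp, mem_filter.2 ⟨h1, ?_⟩⟩
    have hp0 : (0 : ℤ) < ((p ^ 2 : ℕ) : ℤ) := by exact_mod_cast pow_pos (hP p hp).1.pos 2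
    rw [← Int.natCast_modEq_iff, Int.toNat_of_nonneg (Int.emod_nonneg _ hp0.ne')]
    refine Int.ModEq.trans ?_ (Int.mod_modEq _ _).symm
    refine (Int.modEq_iff_dvd.2 ?_).symm
    push_cast
    exact h2
  have h2 : (s.card : ℝ) ≤ ∑ p ∈ PP w y, ((g : ℝ) * ((p : ℝ) ^ 2)⁻¹ + 1) := by
    refine le_trans (Nat.cast_le.2 ((card_le_card h1).trans card_biUnion_le)) ?_
    push_cast
    refine sum_le_sum fun p hp => ?_
    have h3 := Pool.Agent.TH423.SH.FLIP.cnt_Ioc x (x + g) (p ^ 2) (t p % ((p ^ 2 : ℕ) : ℤ)).toNat (by omega)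
      (pow_pos (hP p hp).1.pos 2)
    have h4 := (abs_le.1 h3).2
    push_cast at h4 ⊢
    have h5 : ((x : ℝ) + g - x) / (p : ℝ) ^ 2 = (g : ℝ) * ((p : ℝ) ^ 2)⁻¹ := by
      rw [add_sub_cancel_left, div_eq_mul_inv]
    rw [h5] at h4
    linarith
  refine h2.trans ?_
  rw [sum_add_distrib, ← mul_sum, sum_const, nsmul_eq_mul, mul_one]
  have h3 : ((PP w y).card : ℝ) ≤ y := by
    have : (PP w y).card ≤ y := by
      unfold PP
      refine (card_filter_le _ _).trans ?_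
      rw [Nat.card_Ioc]
      omega
    exact_mod_cast this
  have h4 : ∑ p ∈ PP w y, ((p : ℝ) ^ 2)⁻¹ ≤ (w : ℝ)⁻¹ := by
    rcases le_or_gt w y with h | h
    · refine (sum_le_sum_of_subset_of_nonneg (filter_subset _ _) fun _ _ _ => by positivity).trans ?_
      refine (sum_Ioc_inv_sq_le_sub (by omega) h).trans ?_
      have : (0 : ℝ) ≤ (y : ℝ)⁻¹ := by positivity
      linarith
    · have h5 : PP w y = ∅ := by
        unfold PP
        rw [Ioc_eq_empty (by omega), filter_empty]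
      rw [h5, sum_empty]
      positivity
  have h5 := mul_le_mul_of_nonneg_left h4 (Nat.cast_nonneg g : (0 : ℝ) ≤ g)
  rw [div_eq_mul_inv]
  linarith

theorem sieve (S : Set ℕ) (hS : Dense S) (a t : ℕ → ℤ) (hp : ∀ p ∈ S, p.Prime ∧ ¬ (p : ℤ) ∣ a p) :
    ∃ θ C : ℝ, 0 < θ ∧ 0 ≤ C ∧ ∃ g₁ : ℕ, 3 ≤ g₁ ∧ ∀ x g : ℕ, g₁ ≤ g →
      (({q : ℕ | x < q ∧ q ≤ x + g ∧ q.Prime ∧ ∀ p ∈ S, ¬ (p : ℤ) ∣ (q : ℤ) - a p ∨
        (p : ℤ) ^ 2 ∣ (q : ℤ) - t p}.ncard : ℕ) : ℝ) ≤ C * (g / Real.log g ^ (1 + θ)) := by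
  classical
  obtain ⟨C0, z, hsv⟩ := sv
  obtain ⟨δ, C1, hδ, hC1, hprod⟩ := prod_cc S hS (fun p h => (hp p h).1) z
  set k : ℕ := 2 * (C0 + 1) with hk
  have hk1 : 1 ≤ k := by omega
  set θ : ℝ := min (δ / 2) 1 with hθ
  have hθ0 : 0 < θ := lt_min (by positivity) one_pos
  have hθδ : θ ≤ δ / 2 := min_le_left _ _
  have hθ1 : θ ≤ 1 := min_le_right _ _
  -- the conditions
  have e0 : Tendsto (fun g : ℕ => Real.log g) atTop atTop := Real.tendsto_log_atTop.comp tendsto_natCast_atTop_atTop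
  have e1 : ∀ᶠ g : ℕ in atTop, 3 ^ (2 * k) ≤ g := eventually_ge_atTop _
  have e2 : ∀ᶠ g : ℕ in atTop, 2 ≤ Real.log g := e0.eventually_ge_atTop 2
  have e3 : ∀ᶠ L : ℝ in atTop, Real.log (2 * L ^ 2) ≤ L ^ (δ / 2) := by
    have f1 := (isLittleO_log_rpow_atTop (show (0 : ℝ) < δ / 2 by positivity)).def (show (0 : ℝ) < 1 / 4 by norm_num)
    have f2 : ∀ᶠ L : ℝ in atTop, 2 * Real.log 2 ≤ L ^ (δ / 2) :=
      (tendsto_rpow_atTop (show (0 : ℝ) < δ / 2 by positivity)).eventually_ge_atTop _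
    filter_upwards [f1, f2, eventually_ge_atTop (1 : ℝ)] with L h1 h2 h3
    rw [Real.norm_of_nonneg (Real.log_nonneg h3), Real.norm_of_nonneg (Real.rpow_nonneg (by linarith) _)] at h1
    rw [Real.log_mul (by norm_num) (by positivity), Real.log_pow]
    push_cast
    linarith
  have e3' := e0.eventually e3
  have e4 : ∀ᶠ g : ℕ in atTop, Real.log g ^ 2 ≤ Real.sqrt g := by
    have f1 := (isLittleO_log_rpow_atTop (show (0 : ℝ) < 1 / 4 by norm_num)).def (show (0 : ℝ) < 1 by norm_num)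
    have f2 := (tendsto_natCast_atTop_atTop (R := ℝ)).eventually f1
    filter_upwards [f2, eventually_ge_atTop 1] with g h1 h2
    have hg1 : (1 : ℝ) ≤ g := by exact_mod_cast h2
    have h3 := Real.log_nonneg hg1
    rw [one_mul, Real.norm_of_nonneg h3, Real.norm_of_nonneg (Real.rpow_nonneg (by linarith) _)] at h1
    calc Real.log g ^ 2 ≤ ((g : ℝ) ^ (1 / 4 : ℝ)) ^ 2 := pow_le_pow_left₀ h3 h1 2
      _ = Real.sqrt g := by
          rw [← Real.rpow_natCast, ← Real.rpow_mul (by linarith), Real.sqrt_eq_rpow]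
          norm_num
  obtain ⟨g₁, hg₁⟩ := eventually_atTop.1 (e1.and (e2.and (e3'.and e4)))
  set C6 : ℝ := 2 * (C1 * (2 * k) ^ (1 + δ)) + 4 with hC6
  have hk0 : (0 : ℝ) < 2 * k := by positivity
  refine ⟨θ, C6, hθ0, by positivity, max g₁ 3, le_max_right _ _, fun x g hg => ?_⟩
  obtain ⟨h1, h2, h3, h4⟩ := hg₁ g ((le_max_left _ _).trans hg)
  set L := Real.log g with hL
  have hL0 : 0 < L := by linarith
  have hg0 : (0 : ℝ) ≤ g := Nat.cast_nonneg g
  obtain ⟨J, hJ1, hJ2⟩ := level k g hk1 ((Nat.pow_le_pow_left (by norm_num) k).trans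
    ((Nat.pow_le_pow_right (by norm_num) (by omega)).trans h1))
  set y : ℕ := 2 ^ 2 ^ J with hy
  have hy1 : 1 ≤ y := Nat.one_le_two_pow
  have hy3 : 3 ≤ y := by
    by_contra hcon
    have h5 : y ≤ 3 := by omega
    have h6 : (y ^ k) ^ 2 ≤ 3 ^ (2 * k) := by
      rw [← pow_mul, mul_comm k 2]
      exact Nat.pow_le_pow_left h5 _
    omega
  have hyR : (3 : ℝ) ≤ y := by exact_mod_cast hy3
  have hly : L / (2 * k) ≤ Real.log y := by
    have h5 : (g : ℝ) ≤ (y : ℝ) ^ (2 * k) := by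
      have : g ≤ y ^ (2 * k) := by
        rw [mul_comm 2 k, pow_mul]
        exact hJ2.le
      exact_mod_cast this
    have h6 := Real.log_le_log (by
      have : 0 < g := by omega
      exact_mod_cast this) h5
    rw [Real.log_pow] at h6
    push_cast at h6
    rw [div_le_iff₀ hk0]
    linarith
  have hygs : ((y : ℝ) ^ C0 ≤ Real.sqrt g) ∧ (y : ℝ) ≤ Real.sqrt g := by
    have hyR1 : (1 : ℝ) ≤ y := by linarith
    have h5 : (y : ℝ) ^ k ≤ g := by exact_mod_cast hJ1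
    constructor
    · apply Real.le_sqrt_of_sq_le
      rw [← pow_mul]
      exact (pow_le_pow_right₀ hyR1 (by omega)).trans h5
    · apply Real.le_sqrt_of_sq_le
      exact (pow_le_pow_right₀ hyR1 (by omega)).trans h5
  set w : ℕ := ⌊L ^ 2⌋₊ + 1 with hw
  have hwL : L ^ 2 ≤ w := by
    rw [hw]
    push_cast
    exact (Nat.lt_floor_add_one _).le
  have hw3 : 3 ≤ w := by
    have : (2 : ℝ) < (w : ℝ) := by nlinarith
    have h5 : 2 < w := by exact_mod_cast this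
    omega
  have hwR : (3 : ℝ) ≤ w := by exact_mod_cast hw3
  have hw2 : (w : ℝ) ≤ 2 * L ^ 2 := by
    have := Nat.floor_le (show 0 ≤ L ^ 2 by positivity)
    rw [hw]
    push_cast
    nlinarith
  have hlw : Real.log w ≤ L ^ (δ / 2) := (Real.log_le_log (by linarith) hw2).trans h3
  -- the classes
  set Om : ℕ → Finset ℕ := fun p => if p ∈ S ∧ w < p then {0, (a p % (p : ℤ)).toNat} else {0} with hOm
  have hap : ∀ p ∈ S, (a p % (p : ℤ)).toNat ≠ 0 ∧ (a p % (p : ℤ)).toNat < p ∧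
      (((a p % (p : ℤ)).toNat : ℕ) : ℤ) = a p % (p : ℤ) := by
    intro p hpS
    have hp0 : (0 : ℤ) < p := by exact_mod_cast (hp p hpS).1.pos
    have h5 := Int.emod_nonneg (a p) hp0.ne'
    have h6 := Int.emod_lt_of_pos (a p) hp0
    have h7 := Int.toNat_of_nonneg h5
    refine ⟨fun h8 => ?_, by omega, h7⟩
    rw [h8] at h7
    exact (hp p hpS).2 (Int.dvd_of_emod_eq_zero h7.symm)
  have hcard : ∀ p, ((Om p).card : ℝ) = cc S w p := by
    intro p
    simp only [hOm, cc]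
    split_ifs with h
    · rw [card_pair (Ne.symm (hap p h.1).1)]
      norm_num
    · rw [card_singleton]
      norm_num
  have hOm2 : ∀ p ∈ PP z y, (Om p).card ≤ 2 ∧ ∀ c ∈ Om p, c < p := by
    intro p hpP
    have hpp : p.Prime := by
      unfold PP at hpP
      exact (mem_filter.1 hpP).2
    constructor
    · have : ((Om p).card : ℝ) ≤ 2 := by
        rw [hcard]
        unfold cc
        split_ifs <;> norm_num
      exact_mod_cast this
    · intro c hc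
      simp only [hOm] at hc
      split_ifs at hc with h
      · rw [mem_insert, mem_singleton] at hc
        rcases hc with rfl | rfl
        · exact hpp.pos
        · exact (hap p h.1).2.1
      · rw [mem_singleton] at hc
        rw [hc]
        exact hpp.pos
  set s2 : Finset ℕ := (Ioc x (x + g)).filter fun n => ∃ p ∈ PP w y, ((p : ℤ) ^ 2 ∣ (n : ℤ) - t p) with hs2
  set s3 : Finset ℕ := (Ioc x (x + g)).filter fun n => ∀ p ∈ PP z y, n % p ∉ Om p with hs3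
  have hcov : {q : ℕ | x < q ∧ q ≤ x + g ∧ q.Prime ∧ ∀ p ∈ S, ¬ (p : ℤ) ∣ (q : ℤ) - a p ∨
        (p : ℤ) ^ 2 ∣ (q : ℤ) - t p} ⊆ ((Icc 1 y ∪ (s2 ∪ s3) : Finset ℕ) : Set ℕ) := by
    rintro q ⟨hq1, hq2, hq3, hq4⟩
    rw [mem_coe, mem_union, mem_union, mem_Icc]
    by_cases hqy : q ≤ y
    · exact Or.inl ⟨hq3.one_lt.le, hqy⟩
    right
    by_cases hsq : ∃ p ∈ PP w y, ((p : ℤ) ^ 2 ∣ (q : ℤ) - t p)
    · exact Or.inl (mem_filter.2 ⟨mem_Ioc.2 ⟨hq1, hq2⟩, hsq⟩)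
    right
    rw [hs3, mem_filter]
    refine ⟨mem_Ioc.2 ⟨hq1, hq2⟩, fun p hpP hmem => ?_⟩
    have hpP' : p.Prime ∧ p ≤ y := by
      unfold PP at hpP
      rw [mem_filter, mem_Ioc] at hpP
      exact ⟨hpP.2, hpP.1.2⟩
    have h0 : q % p ≠ 0 := by
      intro h
      have h5 := (Nat.prime_dvd_prime_iff_eq hpP'.1 hq3).1 (Nat.dvd_of_mod_eq_zero h)
      omega
    simp only [hOm] at hmem
    split_ifs at hmem with h
    · rw [mem_insert, mem_singleton] at hmem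
      rcases hmem with h5 | h5
      · exact h0 h5
      · have h6 : (p : ℤ) ∣ (q : ℤ) - a p := by
          have h7 : ((q % p : ℕ) : ℤ) = a p % (p : ℤ) := by rw [h5, (hap p h.1).2.2]
          rw [Int.natCast_mod] at h7
          exact Int.ModEq.dvd (show a p ≡ (q : ℤ) [ZMOD (p : ℤ)] from h7.symm)
        rcases hq4 p h.1 with h7 | h7
        · exact h7 h6
        · refine hsq ⟨p, ?_, h7⟩
          unfold PP
          rw [mem_filter, mem_Ioc]
          exact ⟨⟨h.2, hpP'.2⟩, hpP'.1⟩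
    · rw [mem_singleton] at hmem
      exact h0 hmem
  have hN : (({q : ℕ | x < q ∧ q ≤ x + g ∧ q.Prime ∧ ∀ p ∈ S, ¬ (p : ℤ) ∣ (q : ℤ) - a p ∨
        (p : ℤ) ^ 2 ∣ (q : ℤ) - t p}.ncard : ℕ) : ℝ) ≤ y + (s2.card + s3.card) := by
    have h5 := Set.ncard_le_ncard hcov (Finset.finite_toSet _)
    rw [Set.ncard_coe_finset] at h5
    have h6 := (card_union_le (Icc 1 y) (s2 ∪ s3)).trans (Nat.add_le_add_left (card_union_le s2 s3) _)
    rw [Nat.card_Icc, Nat.add_sub_cancel] at h6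
    exact_mod_cast h5.trans h6
  have h5 := squares w y x g (by omega) t s2 fun n hn => by
    rw [hs2, mem_filter] at hn
    exact hn
  have h6 := hsv J x g Om hOm2 s3 fun n hn => by
    rw [hs3, mem_filter] at hn
    exact hn
  have h7 : ∏ p ∈ PP z (2 ^ 2 ^ J), (1 - ((Om p).card : ℝ) / p) = ∏ p ∈ PP z y, (1 - cc S w p / (p : ℝ)) :=
    prod_congr rfl fun p _ => by rw [hcard]
  rw [h7] at h6
  have h8 := hprod w y hw3 hy3
  -- the powers
  have hLθ : L ^ (1 + θ) ≤ L ^ (2 : ℝ) := Real.rpow_le_rpow_of_exponent_le (by linarith) (by linarith)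
  have hLθ' : L ^ (1 + θ) ≤ L ^ 2 := by
    rw [← Real.rpow_natCast]
    exact_mod_cast hLθ
  have hLp : 0 < L ^ (1 + θ) := Real.rpow_pos_of_pos hL0 _
  have hsqrt : Real.sqrt g ≤ g / L ^ (1 + θ) := by
    rw [le_div_iff₀ hLp]
    calc Real.sqrt g * L ^ (1 + θ) ≤ Real.sqrt g * Real.sqrt g :=
          mul_le_mul_of_nonneg_left (hLθ'.trans h4) (Real.sqrt_nonneg _)
      _ = g := Real.mul_self_sqrt hg0
  have hgw : (g : ℝ) / w ≤ g / L ^ (1 + θ) :=
    div_le_div_of_nonneg_left hg0 hLp (hLθ'.trans hwL)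
  have hmain : C1 * (Real.log w / Real.log y ^ (1 + δ)) ≤ (C1 * (2 * k) ^ (1 + δ)) / L ^ (1 + θ) := by
    have h9 : (L / (2 * k)) ^ (1 + δ) ≤ Real.log y ^ (1 + δ) :=
      Real.rpow_le_rpow (by positivity) hly (by linarith)
    have h10 : 0 < (L / (2 * k)) ^ (1 + δ) := Real.rpow_pos_of_pos (by positivity) _
    have h11 : Real.log w / Real.log y ^ (1 + δ) ≤ L ^ (δ / 2) / (L / (2 * k)) ^ (1 + δ) := by
      refine div_le_div₀ (Real.rpow_nonneg hL0.le _) hlw h10 h9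
    have h12 : L ^ (δ / 2) / (L / (2 * k)) ^ (1 + δ) ≤ (2 * k) ^ (1 + δ) / L ^ (1 + θ) := by
      rw [Real.div_rpow hL0.le hk0.le, div_div_eq_mul_div, div_le_div_iff₀ (Real.rpow_pos_of_pos hL0 _) hLp]
      have h13 : L ^ (δ / 2) * L ^ (1 + θ) ≤ L ^ (1 + δ) := by
        rw [← Real.rpow_add hL0]
        exact Real.rpow_le_rpow_of_exponent_le (by linarith) (by linarith)
      have h14 : 0 ≤ (2 * (k : ℝ)) ^ (1 + δ) := Real.rpow_nonneg hk0.le _
      calc L ^ (δ / 2) * (2 * k) ^ (1 + δ) * L ^ (1 + θ) = (2 * k) ^ (1 + δ) * (L ^ (δ / 2) * L ^ (1 + θ)) := by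
            ring
        _ ≤ (2 * k) ^ (1 + δ) * L ^ (1 + δ) := mul_le_mul_of_nonneg_left h13 h14
    calc C1 * (Real.log w / Real.log y ^ (1 + δ)) ≤ C1 * ((2 * k) ^ (1 + δ) / L ^ (1 + θ)) :=
          mul_le_mul_of_nonneg_left (h11.trans h12) hC1
      _ = _ := by rw [mul_div_assoc]
  have h9 : (g : ℝ) * ∏ p ∈ PP z y, (1 - cc S w p / (p : ℝ)) ≤
      (C1 * (2 * k) ^ (1 + δ)) * (g / L ^ (1 + θ)) := by
    calc _ ≤ (g : ℝ) * ((C1 * (2 * k) ^ (1 + δ)) / L ^ (1 + θ)) :=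
          mul_le_mul_of_nonneg_left (h8.trans hmain) hg0
      _ = _ := by ring
  have h10 : (((2 : ℝ) ^ 2 ^ J) ^ C0) ≤ Real.sqrt g := by
    have h11 : ((2 : ℝ) ^ 2 ^ J) = (y : ℝ) := by
      rw [hy]
      push_cast
      rfl
    rw [h11]
    exact hygs.1
  rw [hC6]
  have h11 := hygs.2
  have h12 : (2 * (C1 * (2 * k) ^ (1 + δ)) + 4) * (g / L ^ (1 + θ)) =
      2 * ((C1 * (2 * k) ^ (1 + δ)) * (g / L ^ (1 + θ))) + 4 * (g / L ^ (1 + θ)) := by ring
  rw [h12]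
  linarith

end Pool.Agent.V5helper45.PQ
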