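import Pool.Agent.TH423.SH.FLLP
import Pool.Agent.TH423.SH.FLIP

/-! The fundamental lemma of the sieve for at most two classes modulo each prime, upper bound. -/

set_option autoImplicit false

namespace Pool.Agent.V5helper45.PQ

open Finset Pool.Agent.TH423.SH Pool.Agent.TH423.SH.FLIP

/-- the primes in `(z, y]` -/
def PP (z y : ℕ) : Finset ℕ := (Ioc z y).filter Nat.Prime

theorem sv : ∃ C z0 : ℕ, ∀ (J x g : ℕ) (Om : ℕ → Finset ℕ),
    (∀ p ∈ PP z0 (2 ^ 2 ^ J), (Om p).card ≤ 2 ∧ ∀ c ∈ Om p, c < p) →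
    ∀ s : Finset ℕ, (∀ n ∈ s, n ∈ Ioc x (x + g) ∧ ∀ p ∈ PP z0 (2 ^ 2 ^ J), n % p ∉ Om p) → (s.card : ℝ) ≤
      2 * (g * ∏ p ∈ PP z0 (2 ^ 2 ^ J), (1 - ((Om p).card : ℝ) / p)) + ((2 : ℝ) ^ 2 ^ J) ^ C := by
  classical
  obtain ⟨C0, hC0, hF⟩ := fll
  set z0 : ℕ := (2 * C0 + 4) * 3 with hz0
  set b : ℕ := (2 * C0 + 4) * 3 with hb
  refine ⟨(2 * C0 + 4) * b, z0, ?_⟩
  intro J x g Om hOm s hs0
  set P := PP z0 (2 ^ 2 ^ J) with hP
  have hPmem : ∀ p ∈ P, p.Prime ∧ z0 < p ∧ p ≤ 2 ^ 2 ^ J := by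
    intro p hp
    rw [hP, PP, mem_filter, mem_Ioc] at hp
    exact ⟨hp.2, hp.1.1, hp.1.2⟩
  have hC : C0 * (2 + 1) ≤ z0 := by rw [hz0]; omega
  have hA : 0 ≤ (g : ℝ) := Nat.cast_nonneg g
  have hp2 : ∀ p ∈ P, (2 : ℝ) ≤ p := fun p hp => by exact_mod_cast (hPmem p hp).1.two_le
  have h1 := hF 2 b J z0 P (fun p => 1 / (p : ℝ)) Om hC hC hPmem (fun p hp => (hOm p hp).1)
    (by
      intro p hp
      have := hp2 p hp
      refine ⟨by positivity, ?_⟩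
      apply one_div_le_one_div_of_le (by linarith)
      linarith)
    (Ioc x (x + g)) (fun _ => 1) (g : ℝ) (fun _ => 1)
    (fun _ _ => zero_le_one) hA (fun _ => zero_le_one)
    (by
      intro T hT _ c hc
      obtain ⟨r, hr⟩ := crt_set 1 0 c T (fun p hp => ⟨(hPmem p (hT hp)).1, fun h =>
        (hPmem p (hT hp)).1.one_lt.ne' (Nat.dvd_one.1 h)⟩)
        (fun p hp => (hOm p (hT hp)).2 _ (hc p hp))
      rw [sum_const, nsmul_eq_mul, mul_one]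
      have e1 : (Ioc x (x + g)).filter (fun n => ∀ p ∈ T, n % p = c p) =
          (Ioc x (x + g)).filter (fun n => n ≡ r [MOD 1 * ∏ p ∈ T, p]) :=
        filter_congr fun n _ => by
          rw [← hr n]
          constructor
          · intro h
            exact ⟨by rw [Nat.mod_one, Nat.mod_one], h⟩
          · intro h
            exact h.2
      have hpos : 0 < 1 * ∏ p ∈ T, p :=
        Nat.mul_pos one_pos (Finset.prod_pos fun p hp => (hPmem p (hT hp)).1.pos)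
      have h2 := cnt_Ioc x (x + g) (1 * ∏ p ∈ T, p) r (by omega) hpos
      rw [e1]
      have e2 : (((x + g : ℕ) : ℝ) - x) / ((1 * ∏ p ∈ T, p : ℕ) : ℝ) = (g : ℝ) * ∏ p ∈ T, 1 / (p : ℝ) := by
        push_cast
        rw [one_mul, div_eq_mul_inv _ (∏ p ∈ T, (p : ℝ)), ← prod_inv_distrib,
          show ((x : ℝ) + g - x) = g by ring]
        simp only [one_div]
      rw [e2] at h2
      exact h2)
  have e3 : ∏ p ∈ P, (1 - ((Om p).card : ℝ) * (1 / (p : ℝ))) = ∏ p ∈ P, (1 - ((Om p).card : ℝ) / p) := by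
    apply prod_congr rfl
    intro p _
    rw [mul_one_div]
  rw [e3, sum_const, nsmul_eq_mul, mul_one] at h1
  set Y : ℕ := (2 ^ 2 ^ J) ^ (C0 * b) with hY
  have hterm : ∀ T ∈ P.powerset.filter (fun T : Finset ℕ => ∏ p ∈ T, p ≤ Y),
      (((2 : ℕ) : ℝ) ^ T.card * 1) ≤ (Y : ℝ) := by
    intro T hT
    rw [mem_filter, mem_powerset] at hT
    rw [mul_one]
    have h2 : 2 ^ T.card ≤ ∏ p ∈ T, p := by
      rw [← prod_const]
      exact prod_le_prod' fun p hp => (hPmem p (hT.1 hp)).1.two_le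
    exact_mod_cast h2.trans hT.2
  have hJ : (J : ℝ) + 2 ≤ ((2 : ℝ) ^ 2 ^ J) ^ 2 := by
    have h2 : J + 2 ≤ (2 ^ 2 ^ J) ^ 2 := by
      have h3 : J < 2 ^ J := Nat.lt_two_pow_self
      have h4 : 2 ^ J < 2 ^ 2 ^ J := Nat.lt_two_pow_self
      have h5 : 2 ≤ 2 ^ 2 ^ J := by
        calc 2 = 2 ^ 1 := rfl
          _ ≤ 2 ^ 2 ^ J := Nat.pow_le_pow_right (by norm_num) (Nat.one_le_two_pow)
      nlinarith
    exact_mod_cast h2
  have hone : (1 : ℝ) ≤ (2 : ℝ) ^ 2 ^ J := one_le_pow₀ (by norm_num)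
  have hs : ((J : ℝ) + 2) * ∑ T ∈ P.powerset.filter (fun T : Finset ℕ => ∏ p ∈ T, p ≤ Y),
      (((2 : ℕ) : ℝ) ^ T.card * 1) ≤ ((2 : ℝ) ^ 2 ^ J) ^ ((2 * C0 + 4) * b) := by
    calc ((J : ℝ) + 2) * ∑ T ∈ P.powerset.filter (fun T : Finset ℕ => ∏ p ∈ T, p ≤ Y),
          (((2 : ℕ) : ℝ) ^ T.card * 1)
        ≤ ((J : ℝ) + 2) * ((Y : ℝ) ^ 2) := by
          apply mul_le_mul_of_nonneg_left _ (by positivity)
          calc ∑ T ∈ P.powerset.filter (fun T : Finset ℕ => ∏ p ∈ T, p ≤ Y), (((2 : ℕ) : ℝ) ^ T.card * 1)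
              ≤ ∑ _T ∈ P.powerset.filter (fun T : Finset ℕ => ∏ p ∈ T, p ≤ Y), (Y : ℝ) :=
                sum_le_sum hterm
            _ = ((P.powerset.filter (fun T : Finset ℕ => ∏ p ∈ T, p ≤ Y)).card : ℝ) * Y := by
                rw [sum_const, nsmul_eq_mul]
            _ ≤ (Y : ℝ) * Y := by
                apply mul_le_mul_of_nonneg_right _ (by positivity)
                exact_mod_cast Pool.Agent.TH423.SH.FLIP.card_le P (fun p hp => (hPmem p hp).1) Y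
            _ = (Y : ℝ) ^ 2 := by ring
      _ ≤ ((2 : ℝ) ^ 2 ^ J) ^ 2 * (Y : ℝ) ^ 2 := by
          apply mul_le_mul_of_nonneg_right hJ (by positivity)
      _ = ((2 : ℝ) ^ 2 ^ J) ^ (2 + 2 * (C0 * b)) := by
          rw [hY]
          push_cast
          rw [pow_add, mul_comm 2 (C0 * b), pow_mul _ (C0 * b) 2]
      _ ≤ ((2 : ℝ) ^ 2 ^ J) ^ ((2 * C0 + 4) * b) := by
          apply pow_le_pow_right₀ hone
          have : (2 * C0 + 4) * b = 2 * (C0 * b) + 4 * b := by ring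
          omega
  have hprod : 0 ≤ (g : ℝ) * ∏ p ∈ P, (1 - ((Om p).card : ℝ) / p) := by
    refine mul_nonneg hA (prod_nonneg fun p hp => ?_)
    have h3 : ((Om p).card : ℝ) ≤ 2 := by exact_mod_cast (hOm p hp).1
    have h4 := hp2 p hp
    rw [sub_nonneg, div_le_one (by linarith)]
    linarith
  have hhalf : (1 / 2 : ℝ) ^ b ≤ 1 := pow_le_one₀ (by norm_num) (by norm_num)
  have h5 : (((Ioc x (x + g)).filter (fun n => ∀ p ∈ P, n % p ∉ Om p)).card : ℝ) -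
      (g : ℝ) * ∏ p ∈ P, (1 - ((Om p).card : ℝ) / p) ≤
      (1 / 2 : ℝ) ^ b * ((g : ℝ) * ∏ p ∈ P, (1 - ((Om p).card : ℝ) / p)) +
      ((J : ℝ) + 2) * ∑ T ∈ P.powerset.filter (fun T : Finset ℕ => ∏ p ∈ T, p ≤ Y),
      (((2 : ℕ) : ℝ) ^ T.card * 1) := by
    refine ((le_abs_self _).trans ?_)
    convert h1
  have h7 : (s.card : ℝ) ≤ (((Ioc x (x + g)).filter (fun n => ∀ p ∈ P, n % p ∉ Om p)).card : ℝ) :=
    Nat.cast_le.2 (card_le_card fun n hn => mem_filter.2 (hs0 n hn))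
  have h6 : (1 / 2 : ℝ) ^ b * ((g : ℝ) * ∏ p ∈ P, (1 - ((Om p).card : ℝ) / p)) ≤
      (g : ℝ) * ∏ p ∈ P, (1 - ((Om p).card : ℝ) / p) := by
    calc _ ≤ 1 * ((g : ℝ) * ∏ p ∈ P, (1 - ((Om p).card : ℝ) / p)) :=
          mul_le_mul_of_nonneg_right hhalf hprod
      _ = _ := one_mul _
  refine h7.trans ?_
  refine le_trans ?_ (add_le_add le_rfl hs)
  refine (sub_le_iff_le_add.1 h5).trans ?_
  rw [two_mul]
  have h8 := add_le_add (add_le_add h6 (le_refl (((J : ℝ) + 2) *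
    ∑ T ∈ P.powerset.filter (fun T : Finset ℕ => ∏ p ∈ T, p ≤ Y), (((2 : ℕ) : ℝ) ^ T.card * 1))))
    (le_refl ((g : ℝ) * ∏ p ∈ P, (1 - ((Om p).card : ℝ) / p)))
  refine h8.trans (le_of_eq ?_)
  ring

end Pool.Agent.V5helper45.PQ
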