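import Pool.Agent.V5helper45.PV.Main

/-! Polynomials at vectors some of whose coordinates are units. -/

set_option autoImplicit false

namespace Pool.Agent.V5helper45.PQ

open Finset Polynomial Pool.Agent.R925.FD Pool.Agent.V5helper45.PV
open Pool.Agent.W401.Cheb Pool.Agent.W723.SecC Pool.Agent.N24.RW

/-- the product of the variables in `P` -/
noncomputable def mon {κ : Type} (P : Finset (Option κ)) : (MvPolynomial κ ℤ)[X] :=
  ∏ i ∈ P, i.elim X (fun j => C (MvPolynomial.X j))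

lemma val_mon {κ : Type} (P : Finset (Option κ)) (c : Option κ → ℤ) :
    val (mon P) (fun i => c (some i)) (c none) = ∏ i ∈ P, c i := by
  unfold Pool.Agent.V5helper45.PV.val mon
  rw [eval₂_finsetProd]
  refine prod_congr rfl fun i _ => ?_
  cases i with
  | none => simp
  | some j => simp

lemma eval_mon {κ : Type} (P : Finset (Option κ)) (ρ : FractionRing (MvPolynomial κ (AlgebraicClosure ℚ)))
    (hρ : none ∈ P → ρ ≠ 0) : eval₂ (toF κ) ρ (mon P) ≠ 0 := by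
  unfold mon
  rw [eval₂_finsetProd, prod_ne_zero_iff]
  intro i hi
  cases i with
  | none => simpa using hρ hi
  | some j =>
    simp only [Option.elim_some, eval₂_C]
    rw [map_ne_zero_iff _ (toF_inj κ)]
    exact MvPolynomial.X_ne_zero j

lemma mon_ne {κ : Type} (P : Finset (Option κ)) : mon P ≠ 0 := by
  intro h
  have := eval_mon P 1 (fun _ => one_ne_zero)
  rw [h, eval₂_zero] at this
  exact this rfl

lemma rootMult_mon {κ : Type} (P : Finset (Option κ)) (Φ : (MvPolynomial κ ℤ)[X]) (hΦ : Φ ≠ 0) (t : ℕ)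
    (ρ : FractionRing (MvPolynomial κ (AlgebraicClosure ℚ))) (hρ : none ∈ P → ρ ≠ 0) :
    ((Φ * mon P ^ t).map (toF κ)).rootMultiplicity ρ = (Φ.map (toF κ)).rootMultiplicity ρ := by
  have h0 : (mon P ^ t : (MvPolynomial κ ℤ)[X]) ≠ 0 := pow_ne_zero _ (mon_ne P)
  have h1 : ((Φ * mon P ^ t).map (toF κ)) ≠ 0 :=
    (Polynomial.map_ne_zero_iff (toF_inj κ)).2 (mul_ne_zero hΦ h0)
  rw [Polynomial.map_mul] at h1 ⊢
  have h2 : ((mon P ^ t).map (toF κ)).rootMultiplicity ρ = 0 := by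
    apply rootMultiplicity_eq_zero
    rw [IsRoot.def, eval_map, eval₂_pow]
    exact pow_ne_zero _ (eval_mon P ρ hρ)
  rw [rootMultiplicity_mul h1, h2, add_zero]

lemma om_unit {κ : Type} {p : ℕ} (P : Finset (Option κ)) (Φ : (MvPolynomial κ ℤ)[X]) (e t : ℕ)
    (ht : e + 1 ≤ t) (c : Option κ → ℤ)
    (hc : (fun i => (c i : ZMod (p ^ 2))) ∈ Om (Φ * mon P ^ t) e p) : ∀ i ∈ P, ¬ (p : ℤ) ∣ c i := by
  intro i hi hdvd
  obtain ⟨-, h2⟩ := hc c fun i => rfl
  apply h2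
  rw [val_mul, val_pow, val_mon]
  have h3 : (p : ℤ) ∣ ∏ i ∈ P, c i := hdvd.trans (dvd_prod_of_mem _ hi)
  exact ((pow_dvd_pow _ ht).trans (pow_dvd_pow_of_dvd h3 t)).trans (Dvd.intro_left _ rfl)

/-- the coordinates in `P` are units -/
lemma om_units {κ : Type} {p : ℕ} (hp : p.Prime) (P : Finset (Option κ)) (Φ : (MvPolynomial κ ℤ)[X]) (e t : ℕ)
    (ht : e + 1 ≤ t) (x : Option κ → ZMod (p ^ 2)) (hx : x ∈ Om (Φ * mon P ^ t) e p) :
    ∀ i ∈ P, IsUnit (x i) := by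
  have : NeZero (p ^ 2) := ⟨(pow_pos hp.pos 2).ne'⟩
  intro i hi
  have h1 : (fun i => (((x i).val : ℤ) : ZMod (p ^ 2))) = x := by
    funext i
    push_cast
    exact ZMod.natCast_zmod_val _
  have h2 := om_unit P Φ e t ht (fun i => ((x i).val : ℤ)) (by rw [h1]; exact hx) i hi
  rw [← ZMod.natCast_zmod_val (x i), ZMod.isUnit_iff_coprime]
  refine Nat.Coprime.pow_right 2 ?_
  rw [Nat.coprime_comm]
  exact (Nat.Prime.coprime_iff_not_dvd hp).2 fun h => h2 (by exact_mod_cast h)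

lemma cover_mul {K : Type} {n m : ℕ} {a w : ℤ} {g : K → ℤ[X]} {h : ℤ[X]} {δ : K → ℚ} {F : Type} [Field F]
    [CharZero F] (hw : w ≠ 0) {t : ℕ} (hm : m ∣ t) (hc : CoveringHasPoint n m a g h δ F) :
    CoveringHasPoint n m (a * w ^ t) g h δ F := by
  obtain ⟨z, z', x, hz, hx, hy⟩ := hc
  obtain ⟨r, rfl⟩ := hm
  have hwF : (w : F) ≠ 0 := Int.cast_ne_zero.2 hw
  refine ⟨z, z', x / (w : F) ^ r, hz, ?_, hy⟩
  rw [← hx, div_pow, ← pow_mul, mul_comm r m]
  push_cast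
  field_simp

/-- the local data -/
theorem local_data {K : Type} [Fintype K] (n : ℕ) (hn : 0 < n) (b : ℤ) (hb : b ≠ 0)
    (g : K → ℤ[X]) (h : ℤ[X]) (hg0 : ∀ k, g k ≠ 0) (hh0 : h ≠ 0) (hdeg : ∀ k, n ∣ (g k).natDegree)
    (hgg : ∀ k l, k ≠ l →
      IsCoprime ((g k).map (Int.castRingHom ℚ)) ((g l).map (Int.castRingHom ℚ)))
    (hgh : ∀ k, IsCoprime (h.map (Int.castRingHom ℚ)) ((g k).map (Int.castRingHom ℚ)))
    {κ : Type} [Fintype κ] (Φ : (MvPolynomial κ ℤ)[X]) (hΦ : Φ ≠ 0)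
    (A B : MvPolynomial κ (AlgebraicClosure ℚ)) (hA : A ≠ 0) (e : ℕ) (he1 : 0 < e)
    (he : (Φ.map (toF κ)).rootMultiplicity
      (algebraMap _ (FractionRing (MvPolynomial κ (AlgebraicClosure ℚ))) B /
        algebraMap _ (FractionRing (MvPolynomial κ (AlgebraicClosure ℚ))) A) = e) :
    ∃ (Δ : Finset (K → ℤ)) (P : (K → ℤ) → Set ℕ),
      (∀ s ∈ Δ, (∀ p ∈ P s, p.Prime ∧ 1 / (4 * (p : ℝ)) * (((p ^ 2 : ℕ) : ℝ)) ^ Fintype.card (Option κ) ≤
          ((Om Φ e p).ncard : ℝ)) ∧ ∀ B : ℝ, ∃ N : ℕ, B ≤ ∑ n ∈ range N,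
        Set.indicator (P s) (fun _ => (1 : ℝ)) n * (1 / ((n : ℝ) + 1))) ∧
      ∀ c : Option κ → ℤ, (∀ s ∈ Δ, ∃ p ∈ P s, (fun i => (c i : ZMod (p ^ 2))) ∈ Om Φ e p) → ∀ m, ¬ m ∣ e →
        m ∣ h.natDegree → ∀ δ : K → ℚ, IsClass n b δ →
        (∀ (p : ℕ) [Fact p.Prime], CoveringHasPoint n m (val Φ (fun i => c (some i)) (c none)) g h δ ℚ_[p]) →
          Pool.Agent.V5helper45.PV.PersistentOver n g h A B δ := by
  classical
  obtain ⟨r, f, G, hr, hrel, hf, hfd, hG⟩ := alg_data (toF κ) (toF_inj κ) Φ hΦ _ e he1 he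
  have hE : eval₂ (toF κ) (algebraMap _ (FractionRing (MvPolynomial κ (AlgebraicClosure ℚ))) B /
        algebraMap _ (FractionRing (MvPolynomial κ (AlgebraicClosure ℚ))) A) (C r * (derivative f * G)) ≠ 0 := by
    rw [eval₂_mul, eval₂_mul, eval₂_C]
    refine mul_ne_zero ?_ (mul_ne_zero hfd hG)
    rw [map_ne_zero_iff _ (toF_inj κ)]
    exact hr
  -- integral coefficients
  have halg : Algebra.IsAlgebraic ℤ (AlgebraicClosure ℚ) := by
    have hq : Algebra.IsAlgebraic ℚ (AlgebraicClosure ℚ) := by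
      have hEq : (DivisionRing.toRatAlgebra : Algebra ℚ (AlgebraicClosure ℚ)) = AlgebraicClosure.instAlgebra ℚ :=
        Subsingleton.elim _ _
      rw [hEq]
      exact AlgebraicClosure.isAlgebraic ℚ
    exact (IsFractionRing.comap_isAlgebraic_iff (A := ℤ) (K := ℚ) (C := AlgebraicClosure ℚ)).2 hq
  obtain ⟨D, hD0, hDi⟩ := Algebra.IsAlgebraic.exists_integral_multiples ℤ
    ((A.support.image fun μ => A.coeff μ) ∪ (B.support.image fun μ => B.coeff μ))
  have hDQ : ((D : ℤ) : AlgebraicClosure ℚ) ≠ 0 := Int.cast_ne_zero.2 hD0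
  have hint : ∀ P : MvPolynomial κ (AlgebraicClosure ℚ), (P = A ∨ P = B) → ∀ μ,
      IsIntegral ℤ ((MvPolynomial.C ((D : ℤ) : AlgebraicClosure ℚ) * P).coeff μ) := by
    intro P hP μ
    rw [MvPolynomial.coeff_C_mul]
    by_cases hμ : P.coeff μ = 0
    · rw [hμ, mul_zero]
      exact isIntegral_zero
    · have h1 : P.coeff μ ∈ (A.support.image fun μ => A.coeff μ) ∪ (B.support.image fun μ => B.coeff μ) := by
        rw [mem_union, mem_image, mem_image]
        rcases hP with rfl | rfl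
        · exact Or.inl ⟨μ, MvPolynomial.mem_support_iff.2 hμ, rfl⟩
        · exact Or.inr ⟨μ, MvPolynomial.mem_support_iff.2 hμ, rfl⟩
      have h2 := hDi _ h1
      rw [zsmul_eq_mul] at h2
      exact h2
  have hA1 : MvPolynomial.C ((D : ℤ) : AlgebraicClosure ℚ) * A ≠ 0 :=
    mul_ne_zero (by rwa [Ne, MvPolynomial.C_eq_zero]) hA
  have hratio : algebraMap _ (FractionRing (MvPolynomial κ (AlgebraicClosure ℚ)))
        (MvPolynomial.C ((D : ℤ) : AlgebraicClosure ℚ) * B) /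
      algebraMap _ (FractionRing (MvPolynomial κ (AlgebraicClosure ℚ)))
        (MvPolynomial.C ((D : ℤ) : AlgebraicClosure ℚ) * A) =
      algebraMap _ (FractionRing (MvPolynomial κ (AlgebraicClosure ℚ))) B /
        algebraMap _ (FractionRing (MvPolynomial κ (AlgebraicClosure ℚ))) A := by
    rw [map_mul, map_mul, mul_div_mul_left]
    rw [map_ne_zero_iff _ (IsFractionRing.injective _ _)]
    rwa [Ne, MvPolynomial.C_eq_zero]
  rw [← hratio] at hf hE
  obtain ⟨Δ, P, h1, h2⟩ := local_main' n hn b hb g h hg0 hh0 hdeg hgg hgh Φ f G r e hrel _ _ hA1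
    (hint A (Or.inl rfl)) (hint B (Or.inr rfl)) hf hE
  refine ⟨Δ, P, h1, fun c hc m hm hmh δ hcl hloc => ?_⟩
  have h3 := h2 c hc m hm hmh δ hcl hloc
  intro σ hσA hσB
  refine h3 σ (fun μ => ?_) (fun μ => ?_)
  · rw [MvPolynomial.coeff_C_mul, map_mul, map_intCast, hσA]
  · rw [MvPolynomial.coeff_C_mul, map_mul, map_intCast, hσB]

end Pool.Agent.V5helper45.PQ
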